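import Mathlib

set_option autoImplicit false

open Finset

namespace H41SQ

section gen

variable {X Y G : Type*} [DecidableEq X] [DecidableEq Y] [DecidableEq G]

/-- number of pairs with the same value -/
def cl (S : Finset X) (φ : X → G) : ℕ := ((S ×ˢ S).filter (fun z : X × X => φ z.1 = φ z.2)).card

theorem cross_eq (S : Finset X) (R : Finset Y) (φ : X → G) (ψ : Y → G) (I : Finset G)
    (hI : ∀ x ∈ S, φ x ∈ I) :
    (((S ×ˢ R).filter (fun z : X × Y => φ z.1 = ψ z.2)).card : ℝ)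
      = ∑ u ∈ I, ((S.filter (fun x => φ x = u)).card : ℝ) * ((R.filter (fun y => ψ y = u)).card : ℝ)
    := by
  have e1 : (((S ×ˢ R).filter (fun z : X × Y => φ z.1 = ψ z.2)).card : ℝ)
      = ∑ x ∈ S, ((R.filter (fun y => ψ y = φ x)).card : ℝ) := by
    rw [Finset.card_filter, Finset.sum_product]
    push_cast
    refine Finset.sum_congr rfl (fun x _ => ?_)
    rw [Finset.card_filter]
    push_cast
    refine Finset.sum_congr rfl (fun y _ => ?_)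
    simp only [eq_comm]
  rw [e1, ← Finset.sum_fiberwise_of_maps_to hI]
  refine Finset.sum_congr rfl (fun u _ => ?_)
  have e2 : ∑ x ∈ S.filter (fun x => φ x = u), ((R.filter (fun y => ψ y = φ x)).card : ℝ)
      = ∑ x ∈ S.filter (fun x => φ x = u), ((R.filter (fun y => ψ y = u)).card : ℝ) := by
    refine Finset.sum_congr rfl (fun x hx => ?_)
    rw [(Finset.mem_filter.mp hx).2]
  rw [e2, Finset.sum_const, nsmul_eq_mul]

theorem cross_le (S : Finset X) (R : Finset Y) (φ : X → G) (ψ : Y → G) :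
    (((S ×ˢ R).filter (fun z : X × Y => φ z.1 = ψ z.2)).card : ℝ)
      ≤ Real.sqrt (cl S φ) * Real.sqrt (cl R ψ) := by
  obtain ⟨I, hI⟩ : ∃ I : Finset G, I = S.image φ ∪ R.image ψ := ⟨_, rfl⟩
  have h1 : ∀ x ∈ S, φ x ∈ I := fun x hx => by
    rw [hI]; exact Finset.mem_union_left _ (Finset.mem_image_of_mem _ hx)
  have h2 : ∀ y ∈ R, ψ y ∈ I := fun y hy => by
    rw [hI]; exact Finset.mem_union_right _ (Finset.mem_image_of_mem _ hy)
  have e1 := cross_eq S S φ φ I h1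
  have e2 := cross_eq R R ψ ψ I h2
  have e3 := cross_eq S R φ ψ I h1
  unfold cl
  rw [e1, e2, e3, ← Real.sqrt_mul (Finset.sum_nonneg (fun u _ => by positivity))]
  apply Real.le_sqrt_of_sq_le
  have := Finset.sum_mul_sq_le_sq_mul_sq I
    (fun u => ((S.filter (fun x => φ x = u)).card : ℝ))
    (fun u => ((R.filter (fun y => ψ y = u)).card : ℝ))
  simpa only [pow_two] using this

end gen

/-- energy, sum form -/
def Ep (A : Finset ℚ) : ℕ := cl (A ×ˢ A) (fun p : ℚ × ℚ => p.1 + p.2)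

/-- energy, difference form -/
def Em (A : Finset ℚ) : ℕ := cl (A ×ˢ A) (fun p : ℚ × ℚ => p.1 - p.2)

theorem Em_eq (A : Finset ℚ) : Em A = Ep A := by
  unfold Em Ep cl
  apply Finset.card_nbij' (fun z => ((z.1.1, z.2.2), (z.2.1, z.1.2)))
    (fun z => ((z.1.1, z.2.2), (z.2.1, z.1.2)))
  · intro z hz
    rw [Finset.mem_coe, Finset.mem_filter, Finset.mem_product, Finset.mem_product,
      Finset.mem_product] at hz
    rw [Finset.mem_coe, Finset.mem_filter, Finset.mem_product, Finset.mem_product,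
      Finset.mem_product]
    refine ⟨⟨⟨hz.1.1.1, hz.1.2.2⟩, ⟨hz.1.2.1, hz.1.1.2⟩⟩, ?_⟩
    have := hz.2
    simp only at this ⊢
    linarith
  · intro z hz
    rw [Finset.mem_coe, Finset.mem_filter, Finset.mem_product, Finset.mem_product,
      Finset.mem_product] at hz
    rw [Finset.mem_coe, Finset.mem_filter, Finset.mem_product, Finset.mem_product,
      Finset.mem_product]
    refine ⟨⟨⟨hz.1.1.1, hz.1.2.2⟩, ⟨hz.1.2.1, hz.1.1.2⟩⟩, ?_⟩
    have := hz.2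
    simp only at this ⊢
    linarith
  · intro z _; rfl
  · intro z _; rfl

theorem Ep_frozen (A : Finset ℚ) : ((A ×ˢ A ×ˢ A ×ˢ A).filter
    (fun x : ℚ × ℚ × ℚ × ℚ => x.1 + x.2.1 = x.2.2.1 + x.2.2.2)).card = Ep A := by
  unfold Ep cl
  apply Finset.card_nbij' (fun x => ((x.1, x.2.1), (x.2.2.1, x.2.2.2)))
    (fun z => (z.1.1, z.1.2, z.2.1, z.2.2))
  · intro x hx
    rw [Finset.mem_coe, Finset.mem_filter, Finset.mem_product, Finset.mem_product,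
      Finset.mem_product] at hx
    rw [Finset.mem_coe, Finset.mem_filter, Finset.mem_product, Finset.mem_product,
      Finset.mem_product]
    exact ⟨⟨⟨hx.1.1, hx.1.2.1⟩, ⟨hx.1.2.2.1, hx.1.2.2.2⟩⟩, hx.2⟩
  · intro z hz
    rw [Finset.mem_coe, Finset.mem_filter, Finset.mem_product, Finset.mem_product,
      Finset.mem_product] at hz
    rw [Finset.mem_coe, Finset.mem_filter, Finset.mem_product, Finset.mem_product,
      Finset.mem_product]
    exact ⟨⟨hz.1.1.1, hz.1.1.2, hz.1.2.1, hz.1.2.2⟩, hz.2⟩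
  · intro z _; rfl
  · intro z _; rfl

/-- pairs of pairs with equal value of `φ`, the first pair inside one class of `κ` -/
theorem part {ι : Type*} [DecidableEq ι] (A : Finset ℚ) (κ : ℚ → ι) (φ : ℚ × ℚ → ℚ) :
    ((((A ×ˢ A) ×ˢ (A ×ˢ A)).filter
      (fun z : (ℚ × ℚ) × (ℚ × ℚ) => φ z.1 = φ z.2 ∧ κ z.1.1 = κ z.1.2)).card : ℝ)
      ≤ ∑ j ∈ A.image κ, Real.sqrt (cl ((A.filter (fun a => κ a = j)) ×ˢ
          (A.filter (fun a => κ a = j))) φ) * Real.sqrt (cl (A ×ˢ A) φ) := by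
  have h1 : ((A ×ˢ A) ×ˢ (A ×ˢ A)).filter
      (fun z : (ℚ × ℚ) × (ℚ × ℚ) => φ z.1 = φ z.2 ∧ κ z.1.1 = κ z.1.2)
      ⊆ (A.image κ).biUnion (fun j => (((A.filter (fun a => κ a = j)) ×ˢ
          (A.filter (fun a => κ a = j))) ×ˢ (A ×ˢ A)).filter (fun z => φ z.1 = φ z.2)) := by
    intro z hz
    rw [Finset.mem_filter, Finset.mem_product, Finset.mem_product, Finset.mem_product] at hz
    obtain ⟨⟨⟨h1, h2⟩, ⟨h3, h4⟩⟩, h5, h6⟩ := hz
    rw [Finset.mem_biUnion]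
    refine ⟨κ z.1.1, Finset.mem_image_of_mem _ h1, ?_⟩
    rw [Finset.mem_filter, Finset.mem_product, Finset.mem_product, Finset.mem_product,
      Finset.mem_filter, Finset.mem_filter]
    exact ⟨⟨⟨⟨h1, rfl⟩, ⟨h2, h6.symm⟩⟩, ⟨h3, h4⟩⟩, h5⟩
  have h2 := (Finset.card_le_card h1).trans Finset.card_biUnion_le
  calc _ ≤ ((∑ j ∈ A.image κ, ((((A.filter (fun a => κ a = j)) ×ˢ
          (A.filter (fun a => κ a = j))) ×ˢ (A ×ˢ A)).filter (fun z => φ z.1 = φ z.2)).card : ℕ) : ℝ) := by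
        exact_mod_cast h2
    _ = ∑ j ∈ A.image κ, (((((A.filter (fun a => κ a = j)) ×ˢ
          (A.filter (fun a => κ a = j))) ×ˢ (A ×ˢ A)).filter (fun z => φ z.1 = φ z.2)).card : ℝ) := by
        push_cast; rfl
    _ ≤ _ := Finset.sum_le_sum (fun j _ => cross_le _ _ φ φ)

/-- Decoupling of the energy. -/
theorem decouple {ι : Type*} [DecidableEq ι] (A : Finset ℚ) (κ : ℚ → ι)
    (hκ : ∀ a ∈ A, ∀ b ∈ A, ∀ c ∈ A, ∀ d ∈ A, a + b = c + d →
      κ a = κ b ∨ κ c = κ d ∨ κ a = κ c ∨ κ a = κ d ∨ κ b = κ c ∨ κ b = κ d) :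
    Real.sqrt (Ep A) ≤ 6 * ∑ j ∈ A.image κ, Real.sqrt (Ep (A.filter (fun a => κ a = j))) := by
  obtain ⟨Z, hZ⟩ : ∃ Z : ℝ, Z = ∑ j ∈ A.image κ, Real.sqrt (Ep (A.filter (fun a => κ a = j))) :=
    ⟨_, rfl⟩
  rw [← hZ]
  have hZ0 : 0 ≤ Z := by rw [hZ]; exact Finset.sum_nonneg (fun _ _ => Real.sqrt_nonneg _)
  obtain ⟨P, hP⟩ : ∃ P : Finset ((ℚ × ℚ) × (ℚ × ℚ)), P = ((A ×ˢ A) ×ˢ (A ×ˢ A)).filter
      (fun z : (ℚ × ℚ) × (ℚ × ℚ) => z.1.1 + z.1.2 = z.2.1 + z.2.2 ∧ κ z.1.1 = κ z.1.2) := ⟨_, rfl⟩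
  obtain ⟨M, hM⟩ : ∃ M : Finset ((ℚ × ℚ) × (ℚ × ℚ)), M = ((A ×ˢ A) ×ˢ (A ×ˢ A)).filter
      (fun z : (ℚ × ℚ) × (ℚ × ℚ) => z.1.1 - z.1.2 = z.2.1 - z.2.2 ∧ κ z.1.1 = κ z.1.2) := ⟨_, rfl⟩
  have hPc : (P.card : ℝ) ≤ Z * Real.sqrt (Ep A) := by
    rw [hP, hZ, Finset.sum_mul]
    exact part A κ (fun p : ℚ × ℚ => p.1 + p.2)
  have hMc : (M.card : ℝ) ≤ Z * Real.sqrt (Ep A) := by
    have := part A κ (fun p : ℚ × ℚ => p.1 - p.2)
    rw [hM, hZ, Finset.sum_mul]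
    refine this.trans (le_of_eq ?_)
    refine Finset.sum_congr rfl (fun j _ => ?_)
    have e1 := Em_eq A
    have e2 := Em_eq (A.filter (fun a => κ a = j))
    unfold Em at e1 e2
    rw [e1, e2]
  -- the six cases
  obtain ⟨Q, hQ⟩ : ∃ Q : Finset ((ℚ × ℚ) × (ℚ × ℚ)), Q = ((A ×ˢ A) ×ˢ (A ×ˢ A)).filter
      (fun z : (ℚ × ℚ) × (ℚ × ℚ) => z.1.1 + z.1.2 = z.2.1 + z.2.2) := ⟨_, rfl⟩
  have hEQ : Ep A = Q.card := by rw [hQ]; rfl
  have hQm : ∀ z, z ∈ Q ↔ ((z.1.1 ∈ A ∧ z.1.2 ∈ A) ∧ (z.2.1 ∈ A ∧ z.2.2 ∈ A)) ∧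
      z.1.1 + z.1.2 = z.2.1 + z.2.2 := by
    intro z
    rw [hQ, Finset.mem_filter, Finset.mem_product, Finset.mem_product, Finset.mem_product]
  have hMm : ∀ z, z ∈ M ↔ ((z.1.1 ∈ A ∧ z.1.2 ∈ A) ∧ (z.2.1 ∈ A ∧ z.2.2 ∈ A)) ∧
      z.1.1 - z.1.2 = z.2.1 - z.2.2 ∧ κ z.1.1 = κ z.1.2 := by
    intro z
    rw [hM, Finset.mem_filter, Finset.mem_product, Finset.mem_product, Finset.mem_product]
  have hPm : ∀ z, z ∈ P ↔ ((z.1.1 ∈ A ∧ z.1.2 ∈ A) ∧ (z.2.1 ∈ A ∧ z.2.2 ∈ A)) ∧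
      z.1.1 + z.1.2 = z.2.1 + z.2.2 ∧ κ z.1.1 = κ z.1.2 := by
    intro z
    rw [hP, Finset.mem_filter, Finset.mem_product, Finset.mem_product, Finset.mem_product]
  have hsub : Q ⊆ P ∪ (P.image (fun z => (z.2, z.1)) ∪ (M.image (fun z => ((z.1.1, z.2.2), (z.1.2, z.2.1)))
      ∪ (M.image (fun z => ((z.1.1, z.2.2), (z.2.1, z.1.2)))
      ∪ (M.image (fun z => ((z.2.2, z.1.1), (z.1.2, z.2.1)))
      ∪ M.image (fun z => ((z.2.2, z.1.1), (z.2.1, z.1.2))))))) := by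
    intro z hz
    rw [hQm] at hz
    obtain ⟨⟨⟨h1, h2⟩, ⟨h3, h4⟩⟩, h5⟩ := hz
    simp only [Finset.mem_union]
    rcases hκ _ h1 _ h2 _ h3 _ h4 h5 with h | h | h | h | h | h
    · exact Or.inl ((hPm z).mpr ⟨⟨⟨h1, h2⟩, ⟨h3, h4⟩⟩, h5, h⟩)
    · refine Or.inr (Or.inl (Finset.mem_image.mpr ⟨(z.2, z.1), (hPm _).mpr ?_, rfl⟩))
      exact ⟨⟨⟨h3, h4⟩, ⟨h1, h2⟩⟩, h5.symm, h⟩
    · refine Or.inr (Or.inr (Or.inl (Finset.mem_image.mpr
        ⟨((z.1.1, z.2.1), (z.2.2, z.1.2)), (hMm _).mpr ?_, rfl⟩)))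
      exact ⟨⟨⟨h1, h3⟩, ⟨h4, h2⟩⟩, by simp only; linarith, h⟩
    · refine Or.inr (Or.inr (Or.inr (Or.inl (Finset.mem_image.mpr
        ⟨((z.1.1, z.2.2), (z.2.1, z.1.2)), (hMm _).mpr ?_, rfl⟩))))
      exact ⟨⟨⟨h1, h4⟩, ⟨h3, h2⟩⟩, by simp only; linarith, h⟩
    · refine Or.inr (Or.inr (Or.inr (Or.inr (Or.inl (Finset.mem_image.mpr
        ⟨((z.1.2, z.2.1), (z.2.2, z.1.1)), (hMm _).mpr ?_, rfl⟩)))))
      exact ⟨⟨⟨h2, h3⟩, ⟨h4, h1⟩⟩, by simp only; linarith, h⟩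
    · refine Or.inr (Or.inr (Or.inr (Or.inr (Or.inr (Finset.mem_image.mpr
        ⟨((z.1.2, z.2.2), (z.2.1, z.1.1)), (hMm _).mpr ?_, rfl⟩)))))
      exact ⟨⟨⟨h2, h4⟩, ⟨h3, h1⟩⟩, by simp only; linarith, h⟩
  have hcard : Q.card ≤ 2 * P.card + 4 * M.card := by
    refine (Finset.card_le_card hsub).trans ?_
    have c1 := Finset.card_union_le P (P.image (fun z => (z.2, z.1)) ∪ (M.image (fun z => ((z.1.1, z.2.2), (z.1.2, z.2.1)))
      ∪ (M.image (fun z => ((z.1.1, z.2.2), (z.2.1, z.1.2)))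
      ∪ (M.image (fun z => ((z.2.2, z.1.1), (z.1.2, z.2.1)))
      ∪ M.image (fun z => ((z.2.2, z.1.1), (z.2.1, z.1.2)))))))
    have c2 := Finset.card_union_le (P.image (fun z => (z.2, z.1))) (M.image (fun z => ((z.1.1, z.2.2), (z.1.2, z.2.1)))
      ∪ (M.image (fun z => ((z.1.1, z.2.2), (z.2.1, z.1.2)))
      ∪ (M.image (fun z => ((z.2.2, z.1.1), (z.1.2, z.2.1)))
      ∪ M.image (fun z => ((z.2.2, z.1.1), (z.2.1, z.1.2))))))
    have c3 := Finset.card_union_le (M.image (fun z => ((z.1.1, z.2.2), (z.1.2, z.2.1))))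
      (M.image (fun z => ((z.1.1, z.2.2), (z.2.1, z.1.2)))
      ∪ (M.image (fun z => ((z.2.2, z.1.1), (z.1.2, z.2.1)))
      ∪ M.image (fun z => ((z.2.2, z.1.1), (z.2.1, z.1.2)))))
    have c4 := Finset.card_union_le (M.image (fun z => ((z.1.1, z.2.2), (z.2.1, z.1.2))))
      (M.image (fun z => ((z.2.2, z.1.1), (z.1.2, z.2.1)))
      ∪ M.image (fun z => ((z.2.2, z.1.1), (z.2.1, z.1.2))))
    have c5 := Finset.card_union_le (M.image (fun z => ((z.2.2, z.1.1), (z.1.2, z.2.1))))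
      (M.image (fun z => ((z.2.2, z.1.1), (z.2.1, z.1.2))))
    have d1 := Finset.card_image_le (s := P) (f := fun z => (z.2, z.1))
    have d2 := Finset.card_image_le (s := M) (f := fun z => ((z.1.1, z.2.2), (z.1.2, z.2.1)))
    have d3 := Finset.card_image_le (s := M) (f := fun z => ((z.1.1, z.2.2), (z.2.1, z.1.2)))
    have d4 := Finset.card_image_le (s := M) (f := fun z => ((z.2.2, z.1.1), (z.1.2, z.2.1)))
    have d5 := Finset.card_image_le (s := M) (f := fun z => ((z.2.2, z.1.1), (z.2.1, z.1.2)))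
    omega
  have hE : (Ep A : ℝ) ≤ 6 * Z * Real.sqrt (Ep A) := by
    have : (Ep A : ℝ) ≤ 2 * (P.card : ℝ) + 4 * (M.card : ℝ) := by
      rw [hEQ]; exact_mod_cast hcard
    linarith
  by_cases h0 : Ep A = 0
  · rw [h0]; simp; positivity
  · have hpos : 0 < Real.sqrt (Ep A) := by
      apply Real.sqrt_pos.mpr
      exact_mod_cast Nat.pos_of_ne_zero h0
    have h1 : Real.sqrt (Ep A) * Real.sqrt (Ep A) ≤ 6 * Z * Real.sqrt (Ep A) := by
      rw [Real.mul_self_sqrt (Nat.cast_nonneg _)]; exact hE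
    exact le_of_mul_le_mul_right h1 hpos

/-- The strong triangle inequality: in `a + b = c + d` two of the four norms coincide. -/
theorem norm_key (p : ℕ) [Fact p.Prime] (a b c d : ℚ) (h : a + b = c + d) :
    padicNorm p a = padicNorm p b ∨ padicNorm p c = padicNorm p d ∨ padicNorm p a = padicNorm p c ∨
    padicNorm p a = padicNorm p d ∨ padicNorm p b = padicNorm p c ∨ padicNorm p b = padicNorm p d := by
  by_cases h1 : padicNorm p a = padicNorm p b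
  · exact Or.inl h1
  by_cases h2 : padicNorm p c = padicNorm p d
  · exact Or.inr (Or.inl h2)
  have e1 := padicNorm.add_eq_max_of_ne h1
  have e2 := padicNorm.add_eq_max_of_ne h2
  rw [h, e2] at e1
  rcases max_choice (padicNorm p a) (padicNorm p b) with h3 | h3 <;>
    rcases max_choice (padicNorm p c) (padicNorm p d) with h4 | h4 <;>
    rw [h3, h4] at e1
  · exact Or.inr (Or.inr (Or.inl e1.symm))
  · exact Or.inr (Or.inr (Or.inr (Or.inl e1.symm)))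
  · exact Or.inr (Or.inr (Or.inr (Or.inr (Or.inl e1.symm))))
  · exact Or.inr (Or.inr (Or.inr (Or.inr (Or.inr e1.symm))))

end H41SQ
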