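import Pool.Agent.H41.SQ.Main

set_option autoImplicit false

open Finset

namespace H41SQ

/-- explicit divisor bound -/
theorem tau_exp (ε : ℝ) (hε : 0 < ε) (hε1 : ε ≤ 1) (q : ℕ) (hq : 1 ≤ q) :
    (q.divisors.card : ℝ) ≤ Real.exp (Real.exp (3 / ε)) * (q : ℝ) ^ ε := by
  obtain ⟨K, hK⟩ : ∃ K : ℝ, K = max 1 (1 / (ε * Real.log 2)) := ⟨_, rfl⟩
  have hlog : 0 < Real.log 2 := Real.log_pos (by norm_num)
  have hK1 : 1 ≤ K := by rw [hK]; exact le_max_left _ _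
  have hK2 : 1 ≤ K * (ε * Real.log 2) := by
    have h1 : 1 / (ε * Real.log 2) ≤ K := by rw [hK]; exact le_max_right _ _
    have h2 : 0 < ε * Real.log 2 := by positivity
    rw [div_le_iff₀ h2] at h1
    exact h1
  obtain ⟨N0, hN0⟩ : ∃ N0 : ℕ, N0 = ⌈(2 : ℝ) ^ (1 / ε)⌉₊ := ⟨_, rfl⟩
  have hmain : (q.divisors.card : ℝ) ≤ K ^ N0 * (q : ℝ) ^ ε := by
    have hq0 : q ≠ 0 := by omega
    rw [Nat.card_divisors hq0]
    push_cast
    apply Pool.Agent.H72.NL.pb3_gen K ε hK1 N0 _ q hq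
    intro p hp
    have hpp : p.Prime := Nat.prime_of_mem_primeFactors hp
    have hp2 : (2 : ℝ) ≤ p := by exact_mod_cast hpp.two_le
    refine ⟨by positivity, ?_⟩
    obtain ⟨v, hv⟩ : ∃ v : ℕ, v = q.factorization p := ⟨_, rfl⟩
    rw [← hv]
    have hrw : (((p : ℝ) ^ v) ^ ε) = ((p : ℝ) ^ ε) ^ v := by
      rw [← Real.rpow_natCast, ← Real.rpow_natCast, ← Real.rpow_mul (by positivity),
        ← Real.rpow_mul (by positivity), mul_comm]
    split_ifs with hlt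
    · have h1 : ((2 : ℝ) ^ ε) ^ v ≤ ((p : ℝ) ^ ε) ^ v := by
        apply pow_le_pow_left₀ (by positivity)
        exact Real.rpow_le_rpow (by norm_num) hp2 hε.le
      have h2 : 1 + (v : ℝ) * (ε * Real.log 2) ≤ ((2 : ℝ) ^ ε) ^ v := by
        have h3 : ((2 : ℝ) ^ ε) ^ v = Real.exp ((v : ℝ) * (ε * Real.log 2)) := by
          rw [Real.rpow_def_of_pos (by norm_num), ← Real.exp_nat_mul]
          congr 1
          ring
        rw [h3]
        have := Real.add_one_le_exp ((v : ℝ) * (ε * Real.log 2))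
        linarith
      rw [hrw]
      have hv : (0 : ℝ) ≤ v := Nat.cast_nonneg v
      calc (v : ℝ) + 1 ≤ v * (K * (ε * Real.log 2)) + K := by nlinarith
        _ = K * (1 + v * (ε * Real.log 2)) := by ring
        _ ≤ K * ((p : ℝ) ^ ε) ^ v := by
            apply mul_le_mul_of_nonneg_left (h2.trans h1) (by linarith)
    · rw [one_mul, hrw]
      have h1 : (2 : ℝ) ^ (1 / ε) ≤ p := by
        have h2 : (N0 : ℝ) ≤ p := by exact_mod_cast not_lt.1 hlt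
        rw [hN0] at h2
        exact (Nat.le_ceil _).trans h2
      have h2 : (2 : ℝ) ≤ (p : ℝ) ^ ε := by
        have h3 := Real.rpow_le_rpow (by positivity) h1 hε.le
        rw [← Real.rpow_mul (by norm_num), one_div, inv_mul_cancel₀ hε.ne', Real.rpow_one] at h3
        exact h3
      have h3 : (2 : ℝ) ^ v ≤ ((p : ℝ) ^ ε) ^ v := pow_le_pow_left₀ (by norm_num) h2 v
      have h4 : (v : ℝ) + 1 ≤ 2 ^ v := by
        have : v + 1 ≤ 2 ^ v := Nat.lt_two_pow_self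
        exact_mod_cast this
      linarith
  refine hmain.trans ?_
  refine mul_le_mul_of_nonneg_right ?_ (Real.rpow_nonneg (Nat.cast_nonneg _) _)
  -- the constant
  obtain ⟨u, hu⟩ : ∃ u : ℝ, u = 1 / ε := ⟨_, rfl⟩
  have hu1 : 1 ≤ u := by rw [hu, le_div_iff₀ hε]; linarith
  have hl1 : (0.69 : ℝ) ≤ Real.log 2 := by
    have := Real.log_two_gt_d9
    linarith
  have hl2 : Real.log 2 ≤ 0.7 := by
    have := Real.log_two_lt_d9
    linarith
  obtain ⟨w, hw⟩ : ∃ w : ℝ, w = 1 / (ε * Real.log 2) := ⟨_, rfl⟩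
  have hwu : w = u / Real.log 2 := by rw [hw, hu]; field_simp
  have hw0 : 0 < w := by rw [hw]; positivity
  have hw145 : w ≤ 1.45 * u := by
    rw [hwu, div_le_iff₀ hlog]
    nlinarith
  have hKw : K ≤ Real.exp w := by
    rw [hK, ← hw]
    apply max_le
    · exact Real.one_le_exp hw0.le
    · have := Real.add_one_le_exp w
      linarith
  have h1 : K ^ N0 ≤ Real.exp (N0 * w) := by
    rw [Real.exp_nat_mul]
    exact pow_le_pow_left₀ (by linarith) hKw N0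
  refine h1.trans (Real.exp_le_exp.mpr ?_)
  have h2 : (N0 : ℝ) ≤ Real.exp (Real.log 2 * (u + 1)) := by
    have h3 : (N0 : ℝ) ≤ (2 : ℝ) ^ u + 1 := by
      rw [hN0, ← hu]
      exact (Nat.ceil_lt_add_one (by positivity)).le
    have h4 : (1 : ℝ) ≤ (2 : ℝ) ^ u := Real.one_le_rpow (by norm_num) (by linarith)
    have h5 : Real.exp (Real.log 2 * (u + 1)) = (2 : ℝ) ^ u * 2 := by
      rw [← Real.rpow_def_of_pos (by norm_num : (0 : ℝ) < 2), Real.rpow_add (by norm_num),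
        Real.rpow_one]
    rw [h5]
    linarith
  have h3 : w ≤ Real.exp (w - 1) := by
    have := Real.add_one_le_exp (w - 1)
    linarith
  have h4 : (N0 : ℝ) * w ≤ Real.exp (Real.log 2 * (u + 1)) * Real.exp (w - 1) :=
    mul_le_mul h2 h3 hw0.le (Real.exp_pos _).le
  refine h4.trans ?_
  rw [← Real.exp_add]
  apply Real.exp_le_exp.mpr
  have h5 : (3 : ℝ) / ε = 3 * u := by rw [hu]; ring
  rw [h5]
  nlinarith

theorem base_exp (η : ℝ) (hη : 0 < η) (hη1 : η ≤ 1) : ∀ N : ℝ, 1 ≤ N →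
    ∀ (r : ℚ) (A : Finset ℚ), r ≠ 0 →
      (∀ a ∈ A, ∃ y : ℚ, (ht y : ℝ) ≤ N ∧ a = (r * y) ^ 2) →
      Real.sqrt (Ep A) ≤ 2 * Real.exp (Real.exp (27 / η)) ^ 2 * N ^ η * A.card := by
  obtain ⟨C, hCd⟩ : ∃ C : ℝ, C = Real.exp (Real.exp (27 / η)) := ⟨_, rfl⟩
  rw [← hCd]
  have hC : ∀ q : ℕ, 1 ≤ q → (q.divisors.card : ℝ) ≤ C * (q : ℝ) ^ (η / 9) := by
    intro q hq
    have h := tau_exp (η / 9) (by positivity) (by linarith) q hq
    have e : (3 : ℝ) / (η / 9) = 27 / η := by field_simp; norm_num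
    rw [e, ← hCd] at h
    exact h
  have hC1 : 1 ≤ C := by
    rw [hCd]
    exact Real.one_le_exp (Real.exp_pos _).le
  intro N hN r A hr hA
  obtain ⟨H, hH⟩ : ∃ H : ℕ, H = ⌊N⌋₊ := ⟨_, rfl⟩
  have hH1 : 1 ≤ H := by rw [hH]; exact Nat.le_floor (by exact_mod_cast hN)
  have hHN : (H : ℝ) ≤ N := by rw [hH]; exact Nat.floor_le (by linarith)
  have hH0 : (0 : ℝ) ≤ H := Nat.cast_nonneg _
  have hHr1 : (1 : ℝ) ≤ H := by exact_mod_cast hH1
  have hT : ∀ k : ℕ, 1 ≤ k → k ≤ H ^ 6 → (k.divisors.card : ℝ) ≤ C * (H : ℝ) ^ (2 * η / 3) := by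
    intro k hk hkH
    refine (hC k hk).trans ?_
    apply mul_le_mul_of_nonneg_left _ (by linarith)
    have h1 : (k : ℝ) ≤ (H : ℝ) ^ (6 : ℝ) := by
      have : (k : ℝ) ≤ ((H ^ 6 : ℕ) : ℝ) := by exact_mod_cast hkH
      rw [show (6 : ℝ) = ((6 : ℕ) : ℝ) by norm_num, Real.rpow_natCast]
      exact_mod_cast this
    calc (k : ℝ) ^ (η / 9) ≤ ((H : ℝ) ^ (6 : ℝ)) ^ (η / 9) :=
          Real.rpow_le_rpow (Nat.cast_nonneg _) h1 (by positivity)
      _ = (H : ℝ) ^ (2 * η / 3) := by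
          rw [← Real.rpow_mul (by linarith)]
          congr 1
          ring
  have h1 := energy_le hH1 r A (by
    intro a ha
    obtain ⟨y, hy, hay⟩ := hA a ha
    have hyH : ht y ≤ H := by rw [hH]; exact Nat.le_floor hy
    unfold ht at hyH
    refine ⟨y, ?_, ?_, hay⟩
    · have h2 : y.num.natAbs ≤ H := (Nat.le_mul_of_pos_right _ y.den_pos).trans hyH
      have e3 : ((y.num.natAbs : ℕ) : ℤ) ≤ (H : ℤ) := by exact_mod_cast h2
      rwa [Int.natCast_natAbs] at e3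
    · by_cases h0 : y = 0
      · rw [h0]; simpa using hH1
      · have h2 : 0 < y.num.natAbs := Int.natAbs_pos.mpr (Rat.num_ne_zero.mpr h0)
        exact (Nat.le_mul_of_pos_left _ h2).trans hyH) hr _ hT
  rw [Ep_frozen] at h1
  apply Real.sqrt_le_iff.mpr
  have hn : (0 : ℝ) ≤ A.card := Nat.cast_nonneg _
  have hNη : (0 : ℝ) ≤ N ^ η := Real.rpow_nonneg (by linarith) _
  refine ⟨by positivity, h1.trans ?_⟩
  have e1 : ((H : ℝ) ^ (2 * η / 3)) ^ 3 = ((H : ℝ) ^ η) ^ 2 := by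
    rw [← Real.rpow_natCast, ← Real.rpow_natCast, ← Real.rpow_mul hH0, ← Real.rpow_mul hH0]
    congr 1
    push_cast
    ring
  have e2 : ((H : ℝ) ^ η) ^ 2 ≤ (N ^ η) ^ 2 :=
    pow_le_pow_left₀ (Real.rpow_nonneg hH0 _) (Real.rpow_le_rpow hH0 hHN hη.le) 2
  have e3 : 2 * C ^ 3 ≤ (2 * C ^ 2) ^ 2 := by nlinarith [pow_pos (by linarith : 0 < C) 3]
  have e4 : (0 : ℝ) ≤ ((H : ℝ) ^ η) ^ 2 := sq_nonneg _
  calc 2 * (C * (H : ℝ) ^ (2 * η / 3)) ^ 3 * (A.card : ℝ) ^ 2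
      = 2 * C ^ 3 * ((H : ℝ) ^ η) ^ 2 * (A.card : ℝ) ^ 2 := by rw [mul_pow, e1]; ring
    _ ≤ (2 * C ^ 2) ^ 2 * (N ^ η) ^ 2 * (A.card : ℝ) ^ 2 := by
        apply mul_le_mul_of_nonneg_right _ (sq_nonneg _)
        exact mul_le_mul e3 e2 e4 (sq_nonneg _)
    _ = (2 * C ^ 2 * N ^ η * A.card) ^ 2 := by ring

/-- the chord bound for `2 ^ (-η)` on `[0, 1]` -/
theorem two_rpow_neg (η : ℝ) (h0 : 0 ≤ η) (h1 : η ≤ 1) : (2 : ℝ) ^ (-η) ≤ 1 - η / 2 := by
  have hc := Real.geom_mean_le_arith_mean2_weighted (w₁ := η) (w₂ := 1 - η) (p₁ := 1 / 2) (p₂ := 1)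
    h0 (by linarith) (by norm_num) (by norm_num) (by ring)
  rw [Real.one_rpow, mul_one] at hc
  have e : (2 : ℝ) ^ (-η) = (1 / 2 : ℝ) ^ η := by
    rw [Real.rpow_neg (by norm_num), one_div, Real.inv_rpow (by norm_num)]
  rw [e]
  linarith

/-- explicit form of `main3` -/
theorem main5 (ε : ℝ) (hε : 0 < ε) (hε1 : ε ≤ 1) (ρ H : ℕ) (g : Fin ρ → ℚ) (A : Finset ℚ)
    (hH : 1 ≤ H) (hg : ∀ i, g i ≠ 0)
    (hA : ∀ a ∈ A, ∃ (e : Fin ρ → ℤ) (y : ℚ), |y.num| ≤ (H : ℤ) ∧ y.den ≤ H ∧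
      a = ((∏ i, g i ^ e i) * y) ^ 2) :
    (((A ×ˢ A ×ˢ A ×ˢ A).filter
        (fun x : ℚ × ℚ × ℚ × ℚ => x.1 + x.2.1 = x.2.2.1 + x.2.2.2)).card : ℝ)
      ≤ (110 / ε) ^ (2 * ρ) * Real.exp (Real.exp (110 / ε)) * (H : ℝ) ^ ε * (A.card : ℝ) ^ 2 := by
  obtain ⟨η, hηd⟩ : ∃ η : ℝ, η = ε / 4 := ⟨_, rfl⟩
  have hη : 0 < η := by rw [hηd]; positivity
  have hη1 : η ≤ 1 := by rw [hηd]; linarith
  obtain ⟨X, hX⟩ : ∃ X : ℝ, X = Real.exp (27 / η) := ⟨_, rfl⟩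
  obtain ⟨B, hBd⟩ : ∃ B : ℝ, B = 2 * Real.exp X ^ 2 := ⟨_, rfl⟩
  have hB := base_exp η hη hη1
  rw [← hX, ← hBd] at hB
  obtain ⟨L, hL⟩ : ∃ L : ℝ, L = 2 / (1 - (2 : ℝ) ^ (-η)) := ⟨_, rfl⟩
  have hx0 : (0 : ℝ) < (2 : ℝ) ^ (-η) := Real.rpow_pos_of_pos (by norm_num) _
  have hx2 := two_rpow_neg η hη.le hη1
  have hx1 : (2 : ℝ) ^ (-η) < 1 := by linarith
  have hL1 : 1 ≤ L := by
    rw [hL, le_div_iff₀ (by linarith)]
    linarith
  have hL2 : 6 * L ≤ 110 / ε := by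
    have h1 : L ≤ 4 / η := by
      rw [hL, div_le_div_iff₀ (by linarith) hη]
      linarith
    have h2 : (4 : ℝ) / η = 16 / ε := by rw [hηd]; field_simp; norm_num
    rw [h2] at h1
    have h3 : 6 * (16 / ε) ≤ 110 / ε := by
      rw [← mul_div_assoc]
      apply div_le_div_of_nonneg_right _ hε.le
      norm_num
    linarith
  have hX1 : 1 ≤ X := by rw [hX]; exact Real.one_le_exp (by positivity)
  have hB0 : 0 ≤ B := by rw [hBd]; positivity
  have hB2 : B ^ 2 ≤ Real.exp (Real.exp (110 / ε)) := by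
    have h4 : (4 : ℝ) ≤ Real.exp 2 := by
      have := Real.add_one_le_exp (1 : ℝ)
      have h5 : Real.exp 2 = Real.exp 1 * Real.exp 1 := by rw [← Real.exp_add]; norm_num
      rw [h5]
      nlinarith
    have h5 : B ^ 2 = 4 * Real.exp (4 * X) := by
      have e1 : Real.exp (4 * X) = Real.exp X ^ 4 := by
        rw [← Real.exp_nat_mul]
        norm_num
      rw [hBd, e1]
      ring
    have h6 : B ^ 2 ≤ Real.exp (2 + 4 * X) := by
      rw [h5, Real.exp_add]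
      exact mul_le_mul_of_nonneg_right h4 (Real.exp_pos _).le
    refine h6.trans (Real.exp_le_exp.mpr ?_)
    have h7 : (27 : ℝ) / η = 108 / ε := by rw [hηd]; field_simp; norm_num
    have h8 : Real.exp (110 / ε) = Real.exp (2 / ε) * X := by
      rw [hX, h7, ← Real.exp_add]
      congr 1
      field_simp
      norm_num
    have h9 : (7 : ℝ) ≤ Real.exp (2 / ε) := by
      have h10 : (2 : ℝ) ≤ 2 / ε := by rw [le_div_iff₀ hε]; linarith
      have h11 : Real.exp 2 ≤ Real.exp (2 / ε) := Real.exp_le_exp.mpr h10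
      have h12 : Real.exp 2 = Real.exp 1 * Real.exp 1 := by rw [← Real.exp_add]; norm_num
      have h13 := Real.exp_one_gt_d9
      nlinarith
    rw [h8]
    nlinarith
  have hH1 : (1 : ℝ) ≤ H := by exact_mod_cast hH
  have hH0 : (0 : ℝ) ≤ H := by linarith
  have hN : (1 : ℝ) ≤ (H : ℝ) ^ 2 := one_le_pow₀ hH1
  have h1 := grp_bound g hg η B L hη hB0 hL hL1 hB ρ ⊤ (by
    rw [finrank_top, Module.finrank_fin_fun]) ((H : ℝ) ^ 2) hN 1 A one_ne_zero (by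
    intro a ha
    obtain ⟨e, y, h1, h2, h3⟩ := hA a ha
    refine ⟨e, Submodule.mem_top, y, ?_, ?_⟩
    · have h4 : y.num.natAbs ≤ H := by
        have : ((y.num.natAbs : ℕ) : ℤ) ≤ (H : ℤ) := by rw [Int.natCast_natAbs]; exact h1
        exact_mod_cast this
      have h5 : ht y ≤ H * H := Nat.mul_le_mul h4 h2
      have h6 : (ht y : ℝ) ≤ ((H * H : ℕ) : ℝ) := by exact_mod_cast h5
      push_cast at h6
      nlinarith
    · rw [h3]
      unfold gp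
      ring)
  rw [Ep_frozen]
  have hs0 : 0 ≤ Real.sqrt (Ep A) := Real.sqrt_nonneg _
  have h2 := pow_le_pow_left₀ hs0 h1 2
  rw [Real.sq_sqrt (Nat.cast_nonneg _)] at h2
  refine h2.trans ?_
  have e1 : (((H : ℝ) ^ 2) ^ η) ^ 2 = (H : ℝ) ^ ε := by
    rw [← Real.rpow_natCast, ← Real.rpow_natCast, ← Real.rpow_mul hH0, ← Real.rpow_mul hH0]
    congr 1
    rw [hηd]
    push_cast
    ring
  have e2 : ((6 * L) ^ ρ * (B * ((H : ℝ) ^ 2) ^ η) * (A.card : ℝ)) ^ 2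
      = (6 * L) ^ (2 * ρ) * B ^ 2 * (H : ℝ) ^ ε * (A.card : ℝ) ^ 2 := by
    rw [← e1]
    generalize 6 * L = Z
    ring
  rw [e2]
  have e4 : (0 : ℝ) ≤ (H : ℝ) ^ ε := Real.rpow_nonneg hH0 _
  apply mul_le_mul_of_nonneg_right _ (sq_nonneg _)
  apply mul_le_mul_of_nonneg_right _ e4
  exact mul_le_mul (pow_le_pow_left₀ (by linarith) hL2 _) hB2 (sq_nonneg _) (by positivity)

end H41SQ
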