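import Pool.Agent.H41.SQ.Pol3
import Pool.Agent.H72.NL.Div

set_option autoImplicit false

open Finset

namespace H41SQ

theorem energy_le {H : ℕ} (hH : 1 ≤ H) (r : ℚ) (A : Finset ℚ)
    (hA : ∀ a ∈ A, ∃ x : ℚ, |x.num| ≤ (H : ℤ) ∧ x.den ≤ H ∧ a = (r * x) ^ 2) (hr : r ≠ 0) (T : ℝ)
    (hT : ∀ N : ℕ, 1 ≤ N → N ≤ H ^ 6 → (N.divisors.card : ℝ) ≤ T) :
    (((A ×ˢ A ×ˢ A ×ˢ A).filter
        (fun x : ℚ × ℚ × ℚ × ℚ => x.1 + x.2.1 = x.2.2.1 + x.2.2.2)).card : ℝ)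
      ≤ 2 * T ^ 3 * (A.card : ℝ) ^ 2 := by
  classical
  have hT1 : 1 ≤ T := by
    have := hT 1 le_rfl (Nat.one_le_pow _ _ hH)
    simpa using this
  have hT0 : 0 ≤ T := by linarith
  -- nonnegative roots
  have hA' : ∀ a ∈ A, ∃ x : ℚ, 0 ≤ x ∧ x.num ≤ (H : ℤ) ∧ x.den ≤ H ∧ a = r ^ 2 * x ^ 2 := by
    intro a ha
    obtain ⟨x, h1, h2, h3⟩ := hA a ha
    refine ⟨|x|, abs_nonneg x, ?_, ?_, ?_⟩
    · rw [Rat.num_abs_eq_abs_num]; exact h1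
    · rw [Rat.den_abs_eq_den]; exact h2
    · rw [h3, sq_abs]; ring
  choose! ρ hρ using hA'
  obtain ⟨X, hXd⟩ : ∃ X : Finset ℚ, X = A.image ρ := ⟨_, rfl⟩
  have hinj : ∀ a ∈ A, ∀ b ∈ A, ρ a = ρ b → a = b := by
    intro a ha b hb h
    rw [(hρ a ha).2.2.2, (hρ b hb).2.2.2, h]
  have hXc : X.card = A.card := by
    rw [hXd]
    exact Finset.card_image_of_injOn (fun a ha b hb h => hinj a ha b hb h)
  have hX : ∀ x ∈ X, 0 ≤ x ∧ x.num ≤ (H : ℤ) ∧ x.den ≤ H := by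
    intro x hx
    rw [hXd] at hx
    obtain ⟨a, ha, rfl⟩ := Finset.mem_image.mp hx
    exact ⟨(hρ a ha).1, (hρ a ha).2.1, (hρ a ha).2.2.1⟩
  have hTd : ∀ x ∈ X, (x.den.divisors.card : ℝ) ≤ T := by
    intro x hx
    refine hT _ x.den_pos ((hX x hx).2.2.trans ?_)
    calc H = H ^ 1 := (pow_one H).symm
      _ ≤ H ^ 6 := Nat.pow_le_pow_right hH (by norm_num)
  have hoff := off hX T hT0 hT hTd
  rw [hXc] at hoff
  obtain ⟨Q, hQ⟩ : ∃ Q : Finset (ℚ × ℚ × ℚ × ℚ), Q = (A ×ˢ A ×ˢ A ×ˢ A).filter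
        (fun x : ℚ × ℚ × ℚ × ℚ => x.1 + x.2.1 = x.2.2.1 + x.2.2.2) := ⟨_, rfl⟩
  rw [← hQ]
  have hmem : ∀ x ∈ Q, (x.1 ∈ A ∧ x.2.1 ∈ A ∧ x.2.2.1 ∈ A ∧ x.2.2.2 ∈ A) ∧
      x.1 + x.2.1 = x.2.2.1 + x.2.2.2 := by
    intro x hx
    rw [hQ, Finset.mem_filter, Finset.mem_product, Finset.mem_product, Finset.mem_product] at hx
    exact hx
  have hsplit : Q.card = (Q.filter (fun x => x.1 = x.2.2.1)).card
      + (Q.filter (fun x => ¬ x.1 = x.2.2.1)).card :=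
    (Finset.card_filter_add_card_filter_not _).symm
  have hd : (Q.filter (fun x => x.1 = x.2.2.1)).card ≤ A.card ^ 2 := by
    rw [pow_two, ← Finset.card_product]
    apply Finset.card_le_card_of_injOn (fun x => (x.1, x.2.1))
    · intro x hx
      rw [Finset.mem_coe, Finset.mem_filter] at hx
      obtain ⟨⟨h1, h2, -, -⟩, -⟩ := hmem x hx.1
      rw [Finset.mem_coe, Finset.mem_product]
      exact ⟨h1, h2⟩
    · intro x hx y hy h
      rw [Finset.mem_coe, Finset.mem_filter] at hx hy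
      obtain ⟨-, ex⟩ := hmem x hx.1
      obtain ⟨-, ey⟩ := hmem y hy.1
      have hx2 := hx.2
      have hy2 := hy.2
      simp only [Prod.mk.injEq] at h
      obtain ⟨h1, h2⟩ := h
      obtain ⟨x1, x2, x3, x4⟩ := x
      obtain ⟨y1, y2, y3, y4⟩ := y
      simp only at *
      have e3 : x3 = y3 := by rw [← hx2, ← hy2, h1]
      have e4 : x4 = y4 := by linarith
      rw [h1, h2, e3, e4]
  have ho : (Q.filter (fun x => ¬ x.1 = x.2.2.1)).card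
      ≤ ((PP X ×ˢ PP X).filter (fun q => sd q.1 = sd q.2)).card := by
    apply Finset.card_le_card_of_injOn
      (fun x => (((ρ x.1, ρ x.2.2.1), (ρ x.2.2.2, ρ x.2.1)) : (ℚ × ℚ) × (ℚ × ℚ)))
    · intro x hx
      rw [Finset.mem_coe, Finset.mem_filter] at hx
      obtain ⟨⟨h1, h2, h3, h4⟩, e⟩ := hmem x hx.1
      have hne := hx.2
      rw [Finset.mem_coe, Finset.mem_filter, Finset.mem_product, mem_PP, mem_PP]
      have m1 : ∀ a ∈ A, ρ a ∈ X := by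
        intro a ha; rw [hXd]; exact Finset.mem_image_of_mem _ ha
      refine ⟨⟨⟨⟨m1 _ h1, m1 _ h3⟩, fun h => hne (hinj _ h1 _ h3 h)⟩,
        ⟨⟨m1 _ h4, m1 _ h2⟩, fun h => ?_⟩⟩, ?_⟩
      · have := hinj _ h4 _ h2 h
        apply hne
        linarith
      · unfold sd
        simp only
        have e1 := (hρ _ h1).2.2.2
        have e2 := (hρ _ h2).2.2.2
        have e3 := (hρ _ h3).2.2.2
        have e4 := (hρ _ h4).2.2.2
        have hr2 : r ^ 2 ≠ 0 := pow_ne_zero 2 hr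
        apply mul_left_cancel₀ hr2
        linear_combination e - e1 - e2 + e3 + e4
    · intro x hx y hy h
      rw [Finset.mem_coe, Finset.mem_filter] at hx hy
      obtain ⟨⟨h1, h2, h3, h4⟩, -⟩ := hmem x hx.1
      obtain ⟨⟨g1, g2, g3, g4⟩, -⟩ := hmem y hy.1
      simp only [Prod.mk.injEq] at h
      obtain ⟨⟨k1, k3⟩, ⟨k4, k2⟩⟩ := h
      have l1 := hinj _ h1 _ g1 k1
      have l2 := hinj _ h2 _ g2 k2
      have l3 := hinj _ h3 _ g3 k3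
      have l4 := hinj _ h4 _ g4 k4
      exact Prod.ext l1 (Prod.ext l2 (Prod.ext l3 l4))
  have hd' : ((Q.filter (fun x => x.1 = x.2.2.1)).card : ℝ) ≤ (A.card : ℝ) ^ 2 := by
    exact_mod_cast hd
  have ho' : ((Q.filter (fun x => ¬ x.1 = x.2.2.1)).card : ℝ) ≤ T ^ 3 * (A.card : ℝ) ^ 2 :=
    le_trans (by exact_mod_cast ho) hoff
  have hT3 : (1 : ℝ) ≤ T ^ 3 := one_le_pow₀ hT1
  have hn : (0 : ℝ) ≤ (A.card : ℝ) ^ 2 := sq_nonneg _
  rw [hsplit]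
  push_cast
  nlinarith

theorem main1 (ε : ℝ) (hε : 0 < ε) : ∃ C : ℝ, 0 < C ∧ ∀ (H : ℕ) (r : ℚ) (A : Finset ℚ),
    1 ≤ H → r ≠ 0 →
    (∀ a ∈ A, ∃ x : ℚ, |x.num| ≤ (H : ℤ) ∧ x.den ≤ H ∧ a = (r * x) ^ 2) →
    (((A ×ˢ A ×ˢ A ×ˢ A).filter
        (fun x : ℚ × ℚ × ℚ × ℚ => x.1 + x.2.1 = x.2.2.1 + x.2.2.2)).card : ℝ)
      ≤ C * (H : ℝ) ^ ε * (A.card : ℝ) ^ 2 := by
  obtain ⟨C, hC⟩ := Pool.Agent.H72.NL.tau_le (ε / 18) (by positivity)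
  have hC1 : 1 ≤ C := by
    have := hC 1 le_rfl
    simpa using this
  refine ⟨2 * C ^ 3, by positivity, ?_⟩
  intro H r A hH hr hA
  have hH1 : (1 : ℝ) ≤ H := by exact_mod_cast hH
  have hT : ∀ N : ℕ, 1 ≤ N → N ≤ H ^ 6 → (N.divisors.card : ℝ) ≤ C * (H : ℝ) ^ (ε / 3) := by
    intro N hN hNH
    refine (hC N hN).trans ?_
    apply mul_le_mul_of_nonneg_left _ (by linarith)
    have h1 : (N : ℝ) ≤ (H : ℝ) ^ (6 : ℝ) := by
      have : (N : ℝ) ≤ ((H ^ 6 : ℕ) : ℝ) := by exact_mod_cast hNH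
      rw [show (6 : ℝ) = ((6 : ℕ) : ℝ) by norm_num, Real.rpow_natCast]
      exact_mod_cast this
    calc (N : ℝ) ^ (ε / 18) ≤ ((H : ℝ) ^ (6 : ℝ)) ^ (ε / 18) :=
          Real.rpow_le_rpow (Nat.cast_nonneg _) h1 (by positivity)
      _ = (H : ℝ) ^ (ε / 3) := by
          rw [← Real.rpow_mul (by linarith)]
          congr 1
          ring
  refine (energy_le hH r A hA hr _ hT).trans (le_of_eq ?_)
  have e : ((H : ℝ) ^ (ε / 3)) ^ 3 = (H : ℝ) ^ ε := by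
    rw [← Real.rpow_natCast, ← Real.rpow_mul (by linarith)]
    congr 1
    push_cast
    ring
  rw [mul_pow, e]
  ring

end H41SQ
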