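import Pool.Agent.H41.SQ.Sun
import Pool.Agent.H41.SQ.Pol4

set_option autoImplicit false

open Finset

namespace H41SQ

section gen2

variable {X G Λ : Type*} [DecidableEq X] [DecidableEq G] [DecidableEq Λ]

/-- Triangle inequality for the square root of the number of collisions. -/
theorem tri (S : Finset X) (φ : X → G) (κ : X → Λ) :
    Real.sqrt (cl S φ) ≤ ∑ l ∈ S.image κ, Real.sqrt (cl (S.filter (fun x => κ x = l)) φ) := by
  apply Real.sqrt_le_iff.mpr
  refine ⟨Finset.sum_nonneg (fun _ _ => Real.sqrt_nonneg _), ?_⟩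
  have h1 : cl S φ = ∑ w ∈ S.image κ ×ˢ S.image κ,
      (((S.filter (fun x => κ x = w.1)) ×ˢ (S.filter (fun x => κ x = w.2))).filter
        (fun z : X × X => φ z.1 = φ z.2)).card := by
    unfold cl
    rw [Finset.card_eq_sum_card_fiberwise (f := fun z : X × X => (κ z.1, κ z.2))
      (t := S.image κ ×ˢ S.image κ)]
    · refine Finset.sum_congr rfl (fun w _ => ?_)
      congr 1
      ext z
      simp only [Finset.mem_filter, Finset.mem_product, Prod.ext_iff]
      tauto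
    · intro z hz
      rw [Finset.mem_coe, Finset.mem_filter, Finset.mem_product] at hz
      rw [Finset.mem_coe, Finset.mem_product]
      exact ⟨Finset.mem_image_of_mem _ hz.1.1, Finset.mem_image_of_mem _ hz.1.2⟩
  rw [h1, pow_two, Finset.sum_mul_sum, ← Finset.sum_product']
  push_cast
  exact Finset.sum_le_sum (fun w _ => cross_le _ _ φ φ)

end gen2

/-- fourth root of the energy -/
noncomputable def qq (A : Finset ℚ) : ℝ := Real.sqrt (Real.sqrt (Ep A))

theorem qq_nonneg (A : Finset ℚ) : 0 ≤ qq A := Real.sqrt_nonneg _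

theorem two_sets (A B : Finset ℚ) :
    Real.sqrt (cl (A ×ˢ B) (fun p : ℚ × ℚ => p.1 + p.2)) ≤ qq A * qq B := by
  unfold qq
  rw [← Real.sqrt_mul (Real.sqrt_nonneg _)]
  apply Real.sqrt_le_sqrt
  have h1 : (cl (A ×ˢ B) (fun p : ℚ × ℚ => p.1 + p.2) : ℝ)
      ≤ ((((A ×ˢ A) ×ˢ (B ×ˢ B)).filter
        (fun z : (ℚ × ℚ) × (ℚ × ℚ) => z.1.1 - z.1.2 = z.2.1 - z.2.2)).card : ℝ) := by
    unfold cl
    have : (((A ×ˢ B) ×ˢ (A ×ˢ B)).filter
        (fun z : (ℚ × ℚ) × (ℚ × ℚ) => z.1.1 + z.1.2 = z.2.1 + z.2.2)).card ≤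
        (((A ×ˢ A) ×ˢ (B ×ˢ B)).filter
        (fun z : (ℚ × ℚ) × (ℚ × ℚ) => z.1.1 - z.1.2 = z.2.1 - z.2.2)).card := by
      apply Finset.card_le_card_of_injOn (fun z => ((z.1.1, z.2.1), (z.2.2, z.1.2)))
      · intro z hz
        rw [Finset.mem_coe, Finset.mem_filter, Finset.mem_product, Finset.mem_product,
          Finset.mem_product] at hz
        rw [Finset.mem_coe, Finset.mem_filter, Finset.mem_product, Finset.mem_product,
          Finset.mem_product]
        refine ⟨⟨⟨hz.1.1.1, hz.1.2.1⟩, ⟨hz.1.2.2, hz.1.1.2⟩⟩, ?_⟩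
        have := hz.2
        simp only at this ⊢
        linarith
      · intro z _ z' _ h
        simp only [Prod.mk.injEq] at h
        exact Prod.ext (Prod.ext h.1.1 h.2.2) (Prod.ext h.1.2 h.2.1)
    exact_mod_cast this
  have h2 := cross_le (A ×ˢ A) (B ×ˢ B) (fun p : ℚ × ℚ => p.1 - p.2) (fun p : ℚ × ℚ => p.1 - p.2)
  have e1 := Em_eq A
  have e2 := Em_eq B
  unfold Em at e1 e2
  rw [e1, e2] at h2
  exact h1.trans h2

theorem qtri {ι : Type*} [DecidableEq ι] (A : Finset ℚ) (κ : ℚ → ι) :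
    Real.sqrt (Ep A) ≤ (∑ j ∈ A.image κ, qq (A.filter (fun a => κ a = j))) ^ 2 := by
  rcases A.eq_empty_or_nonempty with h0 | hne
  · rw [h0]; simp [Ep, cl]
  have h1 := tri (A ×ˢ A) (fun p : ℚ × ℚ => p.1 + p.2) (fun p : ℚ × ℚ => (κ p.1, κ p.2))
  have e1 : (A ×ˢ A).image (fun p : ℚ × ℚ => (κ p.1, κ p.2)) = A.image κ ×ˢ A.image κ := by
    ext w
    simp only [Finset.mem_image, Finset.mem_product, Prod.ext_iff]
    constructor
    · rintro ⟨p, ⟨h1, h2⟩, h3, h4⟩
      exact ⟨⟨p.1, h1, h3⟩, ⟨p.2, h2, h4⟩⟩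
    · rintro ⟨⟨a, ha, h3⟩, ⟨b, hb, h4⟩⟩
      exact ⟨(a, b), ⟨ha, hb⟩, h3, h4⟩
  rw [e1] at h1
  refine h1.trans ?_
  rw [pow_two, Finset.sum_mul_sum, ← Finset.sum_product']
  refine Finset.sum_le_sum (fun w _ => ?_)
  have e2 : (A ×ˢ A).filter (fun p : ℚ × ℚ => (κ p.1, κ p.2) = w)
      = (A.filter (fun a => κ a = w.1)) ×ˢ (A.filter (fun a => κ a = w.2)) := by
    ext p
    simp only [Finset.mem_filter, Finset.mem_product, Prod.ext_iff]
    tauto
  rw [e2]
  exact two_sets _ _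

/-- Combination of classes with weights. -/
theorem combine {ι : Type*} [DecidableEq ι] (A : Finset ℚ) (κ : ℚ → ι) (lam : ι → ℝ) (D L : ℝ)
    (hD : 0 ≤ D) (hlam : ∀ j ∈ A.image κ, 0 ≤ lam j) (hL : ∑ j ∈ A.image κ, lam j ≤ L)
    (h : ∀ j ∈ A.image κ, Real.sqrt (Ep (A.filter (fun a => κ a = j)))
      ≤ lam j * (D * (A.filter (fun a => κ a = j)).card)) :
    Real.sqrt (Ep A) ≤ L * (D * A.card) := by
  refine (qtri A κ).trans ?_
  have h1 : ∑ j ∈ A.image κ, qq (A.filter (fun a => κ a = j))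
      ≤ ∑ j ∈ A.image κ, Real.sqrt (lam j) * Real.sqrt (D * (A.filter (fun a => κ a = j)).card) := by
    refine Finset.sum_le_sum (fun j hj => ?_)
    rw [← Real.sqrt_mul (hlam j hj)]
    exact Real.sqrt_le_sqrt (h j hj)
  have h2 := Finset.sum_mul_sq_le_sq_mul_sq (A.image κ) (fun j => Real.sqrt (lam j))
    (fun j => Real.sqrt (D * (A.filter (fun a => κ a = j)).card))
  have e1 : ∑ j ∈ A.image κ, Real.sqrt (lam j) ^ 2 = ∑ j ∈ A.image κ, lam j :=
    Finset.sum_congr rfl (fun j hj => Real.sq_sqrt (hlam j hj))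
  have e2 : ∑ j ∈ A.image κ, Real.sqrt (D * (A.filter (fun a => κ a = j)).card) ^ 2
      = D * A.card := by
    have e3 : ∑ j ∈ A.image κ, Real.sqrt (D * (A.filter (fun a => κ a = j)).card) ^ 2
        = ∑ j ∈ A.image κ, D * ((A.filter (fun a => κ a = j)).card : ℝ) :=
      Finset.sum_congr rfl (fun j _ => Real.sq_sqrt (by positivity))
    rw [e3, ← Finset.mul_sum]
    congr 1
    have := Finset.card_eq_sum_card_image κ A
    rw [this]
    push_cast
    rfl
  rw [e1, e2] at h2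
  have h3 : (∑ j ∈ A.image κ, qq (A.filter (fun a => κ a = j))) ^ 2
      ≤ (∑ j ∈ A.image κ, Real.sqrt (lam j) * Real.sqrt (D * (A.filter (fun a => κ a = j)).card)) ^ 2 :=
    pow_le_pow_left₀ (Finset.sum_nonneg (fun _ _ => qq_nonneg _)) h1 2
  refine h3.trans (h2.trans ?_)
  exact mul_le_mul_of_nonneg_right hL (by positivity)

end H41SQ
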