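import Pool.Agent.H41.SQ.Rk

set_option autoImplicit false

open Finset

namespace H41SQ

theorem pnorm_pow (p : ℕ) [hp : Fact p.Prime] (k : ℤ) :
    padicNorm p ((p : ℚ) ^ k) = (p : ℚ) ^ (-k) := by
  have hp0 : (p : ℚ) ≠ 0 := by exact_mod_cast hp.out.ne_zero
  rw [padicNorm.eq_zpow_of_nonzero (zpow_ne_zero _ hp0), padicValRat.zpow,
    padicValRat.self hp.out.one_lt, mul_one]

/-- One class of the decoupling at `p`. -/
theorem one_class {ρ : ℕ} (g : Fin ρ → ℚ) (hg : ∀ i, g i ≠ 0) (η B L D0 : ℝ) (hη : 0 < η)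
    (hB : 0 ≤ B) (hD0 : 1 ≤ D0) (hL : L = 2 / (1 - (2 : ℝ) ^ (-η))) (hL1 : 1 ≤ L)
    (hbase : ∀ N : ℝ, 1 ≤ N → ∀ (r : ℚ) (A : Finset ℚ), r ≠ 0 →
      (∀ a ∈ A, ∃ y : ℚ, (ht y : ℝ) ≤ N ∧ a = (r * y) ^ 2) →
      Real.sqrt (Ep A) ≤ B * N ^ η * A.card)
    (p : ℕ) [hp : Fact p.Prime] (M M' : Submodule ℤ (Fin ρ → ℤ))
    (hM1 : ∀ e, e ∈ M → lin p g e = 0 → e ∈ M')
    (hM2 : ∀ e ∈ M', e ∈ M)
    (hind : ∀ N : ℝ, 1 ≤ N → ∀ (r : ℚ) (A : Finset ℚ), r ≠ 0 →
      (∀ a ∈ A, ∃ e ∈ M', ∃ y : ℚ, (ht y : ℝ) ≤ N ∧ a = (r * gp g e * y) ^ 2) →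
      Real.sqrt (Ep A) ≤ D0 * (B * N ^ η) * A.card)
    (N : ℝ) (hN : 1 ≤ N) (r : ℚ) (A : Finset ℚ) (hr : r ≠ 0)
    (hA : ∀ a ∈ A, ∃ e ∈ M, ∃ y : ℚ, (ht y : ℝ) ≤ N ∧ a = (r * gp g e * y) ^ 2) (j : ℚ) :
    Real.sqrt (Ep (A.filter (fun a => padicNorm p a = j)))
      ≤ L * (D0 * (B * N ^ η) * (A.filter (fun a => padicNorm p a = j)).card) := by
  have hp0 : (p : ℚ) ≠ 0 := by exact_mod_cast hp.out.ne_zero
  have hp1 : (1 : ℚ) < p := by exact_mod_cast hp.out.one_lt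
  have hpr : (2 : ℝ) ≤ p := by exact_mod_cast hp.out.two_le
  have hN0 : (0 : ℝ) ≤ N ^ η := Real.rpow_nonneg (by linarith) _
  have hBN : 0 ≤ B * N ^ η := mul_nonneg hB hN0
  have hD : 0 ≤ D0 * (B * N ^ η) := mul_nonneg (by linarith) hBN
  obtain ⟨A', hA'⟩ : ∃ A' : Finset ℚ, A' = A.filter (fun a => padicNorm p a = j) := ⟨_, rfl⟩
  rw [← hA']
  by_cases hj : j = 0
  · have h1 := hbase N hN 1 A' one_ne_zero (by
      intro a ha
      rw [hA', Finset.mem_filter, hj] at ha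
      have h0 : a = 0 := padicNorm.zero_of_padicNorm_eq_zero ha.2
      refine ⟨0, ?_, ?_⟩
      · simp [ht]; linarith
      · rw [h0]; simp)
    refine h1.trans ?_
    have hc : (0 : ℝ) ≤ A'.card := Nat.cast_nonneg _
    have h2 : B * N ^ η * (A'.card : ℝ) ≤ D0 * (B * N ^ η) * A'.card := by
      have := mul_nonneg hBN hc
      nlinarith
    have h3 : 0 ≤ D0 * (B * N ^ η) * (A'.card : ℝ) := mul_nonneg hD hc
    nlinarith
  have hdec : ∀ a ∈ A', ∃ (e : Fin ρ → ℤ) (y : ℚ) (v : ℤ), e ∈ M ∧ y ≠ 0 ∧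
      ((p ^ v.natAbs * ht y : ℕ) : ℝ) ≤ N ∧ a = (r * gp g e * (p : ℚ) ^ v * y) ^ 2 ∧
      j = (padicNorm p r * (p : ℚ) ^ (-(lin p g e)) * (p : ℚ) ^ (-v)) ^ 2 := by
    intro a ha
    rw [hA', Finset.mem_filter] at ha
    obtain ⟨ha, haj⟩ := ha
    obtain ⟨e, he, y, h2, h3⟩ := hA a ha
    have ha0 : a ≠ 0 := by
      rintro rfl
      apply hj
      rw [← haj]; simp
    have hy0 : y ≠ 0 := by
      rintro rfl
      apply ha0
      rw [h3]; simp
    obtain ⟨v, y', g1, g2, g3⟩ := strip2 p y hy0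
    have hy'0 : y' ≠ 0 := by
      rintro rfl
      apply hy0
      rw [g1]; simp
    have h5 : a = (r * gp g e * (p : ℚ) ^ v * y') ^ 2 := by
      rw [h3, g1]
      ring
    refine ⟨e, y', v, he, hy'0, le_trans (by exact_mod_cast g3) h2, h5, ?_⟩
    have h6 : padicNorm p (gp g e) = (p : ℚ) ^ (-(lin p g e)) := by
      rw [padicNorm.eq_zpow_of_nonzero (gp_ne g hg e), val_gp p g hg e]
    rw [← haj, h5, pow_two, padicNorm.mul, padicNorm.mul, padicNorm.mul, padicNorm.mul, g2, h6,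
      pnorm_pow]
    ring
  choose! e y v he hy0 hht hae hje using hdec
  have hrn : 0 < padicNorm p r := lt_of_le_of_ne (padicNorm.nonneg r) (by
    intro h
    exact hr (padicNorm.zero_of_padicNorm_eq_zero h.symm))
  have hlin : ∀ a ∈ A', ∀ b ∈ A', v a = v b → lin p g (e a) = lin p g (e b) := by
    intro a ha b hb hv
    have e1 := hje a ha
    have e2 := hje b hb
    rw [e1, hv] at e2
    have hv0 : (0 : ℚ) < (p : ℚ) ^ (-(v b)) := zpow_pos (by linarith) _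
    have a1 : 0 ≤ padicNorm p r * (p : ℚ) ^ (-(lin p g (e a))) * (p : ℚ) ^ (-(v b)) := by positivity
    have a2 : 0 ≤ padicNorm p r * (p : ℚ) ^ (-(lin p g (e b))) * (p : ℚ) ^ (-(v b)) := by positivity
    have e3 := (pow_left_inj₀ a1 a2 two_ne_zero).mp e2
    have e4 := mul_right_cancel₀ hv0.ne' e3
    have e5 := mul_left_cancel₀ hrn.ne' e4
    have e6 := zpow_right_injective₀ (by linarith : (0 : ℚ) < p) hp1.ne' e5
    linarith
  obtain ⟨lam, hlam⟩ : ∃ lam : ℤ → ℝ, lam = fun w => ((p : ℝ) ^ w.natAbs) ^ (-η) := ⟨_, rfl⟩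
  have hx0 : (0 : ℝ) < (2 : ℝ) ^ (-η) := Real.rpow_pos_of_pos (by norm_num) _
  have hx1 : (2 : ℝ) ^ (-η) < 1 := Real.rpow_lt_one_of_one_lt_of_neg (by norm_num) (by linarith)
  have hlam0 : ∀ w, 0 ≤ lam w := by
    intro w; rw [hlam]; positivity
  have hlamx : ∀ w : ℤ, lam w ≤ ((2 : ℝ) ^ (-η)) ^ w.natAbs := by
    intro w
    rw [hlam]
    simp only
    rw [← Real.rpow_natCast, ← Real.rpow_mul (by linarith), mul_comm, Real.rpow_mul (by linarith),
      Real.rpow_natCast]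
    apply pow_le_pow_left₀ (Real.rpow_nonneg (by linarith) _)
    exact Real.rpow_le_rpow_of_nonpos (by norm_num) hpr (by linarith)
  refine combine A' v lam (D0 * (B * N ^ η)) L hD (fun w _ => hlam0 w) ?_ ?_
  · refine (Finset.sum_le_sum (fun w _ => hlamx w)).trans ?_
    rw [hL]
    exact wsum _ hx0.le hx1 _
  · intro w hw
    obtain ⟨a1, ha1, hva1⟩ := Finset.mem_image.mp hw
    have hpw : (0 : ℝ) < (p : ℝ) ^ w.natAbs := by positivity
    have hN' : 1 ≤ N / (p : ℝ) ^ w.natAbs := by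
      rw [le_div_iff₀ hpw, one_mul]
      have h1 := hht a1 ha1
      rw [hva1] at h1
      have h2 : 1 ≤ ht (y a1) := by
        unfold ht
        have : 0 < (y a1).num.natAbs := Int.natAbs_pos.mpr (Rat.num_ne_zero.mpr (hy0 a1 ha1))
        exact Nat.mul_pos this (y a1).den_pos
      have h3 : p ^ w.natAbs ≤ p ^ w.natAbs * ht (y a1) := Nat.le_mul_of_pos_right _ h2
      have h4 : ((p ^ w.natAbs : ℕ) : ℝ) ≤ ((p ^ w.natAbs * ht (y a1) : ℕ) : ℝ) := by
        exact_mod_cast h3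
      push_cast at h4 h1
      linarith
    have h1 := hind (N / (p : ℝ) ^ w.natAbs) hN' (r * gp g (e a1) * (p : ℚ) ^ w)
      (A'.filter (fun a => v a = w))
      (mul_ne_zero (mul_ne_zero hr (gp_ne g hg _)) (zpow_ne_zero _ hp0)) (by
        intro a ha
        rw [Finset.mem_filter] at ha
        obtain ⟨ha, hva⟩ := ha
        refine ⟨e a - e a1, ?_, y a, ?_, ?_⟩
        · apply hM1 _ (M.sub_mem (he a ha) (he a1 ha1))
          rw [map_sub, hlin a ha a1 ha1 (by rw [hva, hva1]), sub_self]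
        · rw [le_div_iff₀ hpw]
          have h1 := hht a ha
          rw [hva] at h1
          push_cast at h1
          linarith
        · have h2 : gp g (e a) = gp g (e a1) * gp g (e a - e a1) := by
            rw [← gp_add g hg]
            congr 1
            abel
          have h3 := hae a ha
          rw [hva] at h3
          conv_lhs => rw [h3]
          rw [h2]
          ring)
    refine h1.trans (le_of_eq ?_)
    have h2 : (N / (p : ℝ) ^ w.natAbs) ^ η = N ^ η * lam w := by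
      rw [hlam]
      simp only
      rw [Real.div_rpow (by linarith) hpw.le, Real.rpow_neg hpw.le, div_eq_mul_inv]
    rw [h2]
    ring

/-- Induction on the rank. -/
theorem grp_bound {ρ : ℕ} (g : Fin ρ → ℚ) (hg : ∀ i, g i ≠ 0) (η B L : ℝ) (hη : 0 < η)
    (hB : 0 ≤ B) (hL : L = 2 / (1 - (2 : ℝ) ^ (-η))) (hL1 : 1 ≤ L)
    (hbase : ∀ N : ℝ, 1 ≤ N → ∀ (r : ℚ) (A : Finset ℚ), r ≠ 0 →
      (∀ a ∈ A, ∃ y : ℚ, (ht y : ℝ) ≤ N ∧ a = (r * y) ^ 2) →
      Real.sqrt (Ep A) ≤ B * N ^ η * A.card) (m : ℕ) :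
    ∀ M : Submodule ℤ (Fin ρ → ℤ), Module.finrank ℤ M ≤ m →
    ∀ N : ℝ, 1 ≤ N → ∀ (r : ℚ) (A : Finset ℚ), r ≠ 0 →
      (∀ a ∈ A, ∃ e ∈ M, ∃ y : ℚ, (ht y : ℝ) ≤ N ∧ a = (r * gp g e * y) ^ 2) →
      Real.sqrt (Ep A) ≤ (6 * L) ^ m * (B * N ^ η) * A.card := by
  induction m with
  | zero =>
    intro M hM N hN r A hr hA
    rw [pow_zero, one_mul]
    refine hbase N hN r A hr ?_
    intro a ha
    obtain ⟨e, he, y, h1, h2⟩ := hA a ha
    have hbot : M = ⊥ := by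
      by_contra hne
      have : 1 ≤ Module.finrank ℤ M := Submodule.one_le_finrank_iff.mpr hne
      omega
    rw [hbot, Submodule.mem_bot] at he
    refine ⟨y, h1, ?_⟩
    rw [h2, he]
    unfold gp
    simp
  | succ m ih =>
    intro M hM N hN r A hr hA
    have hN0 : (0 : ℝ) ≤ N ^ η := Real.rpow_nonneg (by linarith) _
    have hBN : 0 ≤ B * N ^ η := mul_nonneg hB hN0
    have hBA : 0 ≤ B * N ^ η * (A.card : ℝ) := mul_nonneg hBN (Nat.cast_nonneg _)
    by_cases hall : ∀ e ∈ M, gp g e = 1 ∨ gp g e = -1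
    · have h1 := hbase N hN r A hr (by
        intro a ha
        obtain ⟨e, he, y, h1, h2⟩ := hA a ha
        refine ⟨y, h1, ?_⟩
        rw [h2]
        rcases hall e he with h | h
        · rw [h]; ring
        · rw [h]; ring)
      refine h1.trans ?_
      have h2 : (1 : ℝ) ≤ (6 * L) ^ (m + 1) := one_le_pow₀ (by linarith)
      nlinarith
    · push Not at hall
      obtain ⟨e0, he0, hne1, hne2⟩ := hall
      obtain ⟨p, hpp, hpv⟩ := exists_prime (gp g e0) (gp_ne g hg e0) hne1 hne2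
      have : Fact p.Prime := ⟨hpp⟩
      rw [val_gp p g hg] at hpv
      obtain ⟨M', hM1, hM2, hM3⟩ := rank_drop M (lin p g) e0 he0 hpv
      have hM' : Module.finrank ℤ M' ≤ m := by omega
      have hD0 : (1 : ℝ) ≤ (6 * L) ^ m := one_le_pow₀ (by linarith)
      have h1 := decouple A (padicNorm p) (fun a _ b _ c _ d _ h => norm_key p a b c d h)
      have h2 : ∑ j ∈ A.image (padicNorm p), Real.sqrt (Ep (A.filter (fun a => padicNorm p a = j)))
          ≤ ∑ j ∈ A.image (padicNorm p), L * ((6 * L) ^ m * (B * N ^ η) *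
            ((A.filter (fun a => padicNorm p a = j)).card : ℝ)) :=
        Finset.sum_le_sum (fun j _ => one_class g hg η B L ((6 * L) ^ m) hη hB hD0 hL hL1 hbase p
          M M' hM1 hM2 (fun N hN r A hr hA => ih M' hM' N hN r A hr hA) N hN r A hr hA j)
      have h3 : ∑ j ∈ A.image (padicNorm p), ((A.filter (fun a => padicNorm p a = j)).card : ℝ)
          = A.card := by
        have := Finset.card_eq_sum_card_image (padicNorm p) A
        rw [this]
        push_cast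
        rfl
      rw [← Finset.mul_sum, ← Finset.mul_sum, h3] at h2
      calc Real.sqrt (Ep A) ≤ 6 * ∑ j ∈ A.image (padicNorm p),
            Real.sqrt (Ep (A.filter (fun a => padicNorm p a = j))) := h1
        _ ≤ 6 * (L * ((6 * L) ^ m * (B * N ^ η) * A.card)) := by linarith
        _ = (6 * L) ^ (m + 1) * (B * N ^ η) * A.card := by ring

end H41SQ
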