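import Pool.Agent.H41.SQ.Ind

set_option autoImplicit false

open Finset

namespace H41SQ

theorem base_bound (η : ℝ) (hη : 0 < η) : ∃ B : ℝ, 1 ≤ B ∧ ∀ N : ℝ, 1 ≤ N →
    ∀ (r : ℚ) (A : Finset ℚ), r ≠ 0 →
      (∀ a ∈ A, ∃ y : ℚ, (ht y : ℝ) ≤ N ∧ a = (r * y) ^ 2) →
      Real.sqrt (Ep A) ≤ B * N ^ η * A.card := by
  obtain ⟨C, hC⟩ := Pool.Agent.H72.NL.tau_le (η / 9) (by positivity)
  have hC1 : 1 ≤ C := by
    have := hC 1 le_rfl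
    simpa using this
  refine ⟨2 * C ^ 2, by nlinarith, ?_⟩
  intro N hN r A hr hA
  obtain ⟨H, hH⟩ : ∃ H : ℕ, H = ⌊N⌋₊ := ⟨_, rfl⟩
  have hH1 : 1 ≤ H := by rw [hH]; exact Nat.le_floor (by exact_mod_cast hN)
  have hHN : (H : ℝ) ≤ N := by rw [hH]; exact Nat.floor_le (by linarith)
  have hH0 : (0 : ℝ) ≤ H := Nat.cast_nonneg _
  have hHr1 : (1 : ℝ) ≤ H := by exact_mod_cast hH1
  have hT : ∀ k : ℕ, 1 ≤ k → k ≤ H ^ 6 → (k.divisors.card : ℝ) ≤ C * (H : ℝ) ^ (2 * η / 3) := by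
    intro k hk hkH
    refine (hC k hk).trans ?_
    apply mul_le_mul_of_nonneg_left _ (by linarith)
    have h1 : (k : ℝ) ≤ (H : ℝ) ^ (6 : ℝ) := by
      have : (k : ℝ) ≤ ((H ^ 6 : ℕ) : ℝ) := by exact_mod_cast hkH
      rw [show (6 : ℝ) = ((6 : ℕ) : ℝ) by norm_num, Real.rpow_natCast]
      exact_mod_cast this
    calc (k : ℝ) ^ (η / 9) ≤ ((H : ℝ) ^ (6 : ℝ)) ^ (η / 9) :=
          Real.rpow_le_rpow (Nat.cast_nonneg _) h1 (by positivity)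
      _ = (H : ℝ) ^ (2 * η / 3) := by
          rw [← Real.rpow_mul (by linarith)]
          congr 1
          ring
  have h1 := energy_le hH1 r A (by
    intro a ha
    obtain ⟨y, hy, hay⟩ := hA a ha
    have hyH : ht y ≤ H := by rw [hH]; exact Nat.le_floor hy
    unfold ht at hyH
    refine ⟨y, ?_, ?_, hay⟩
    · have h2 : y.num.natAbs ≤ H := (Nat.le_mul_of_pos_right _ y.den_pos).trans hyH
      have e3 : ((y.num.natAbs : ℕ) : ℤ) ≤ (H : ℤ) := by exact_mod_cast h2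
      rwa [Int.natCast_natAbs] at e3
    · by_cases h0 : y = 0
      · rw [h0]; simpa using hH1
      · have h2 : 0 < y.num.natAbs := Int.natAbs_pos.mpr (Rat.num_ne_zero.mpr h0)
        exact (Nat.le_mul_of_pos_left _ h2).trans hyH) hr _ hT
  rw [Ep_frozen] at h1
  apply Real.sqrt_le_iff.mpr
  have hn : (0 : ℝ) ≤ A.card := Nat.cast_nonneg _
  have hNη : (0 : ℝ) ≤ N ^ η := Real.rpow_nonneg (by linarith) _
  refine ⟨by positivity, h1.trans ?_⟩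
  have e1 : ((H : ℝ) ^ (2 * η / 3)) ^ 3 = ((H : ℝ) ^ η) ^ 2 := by
    rw [← Real.rpow_natCast, ← Real.rpow_natCast, ← Real.rpow_mul hH0, ← Real.rpow_mul hH0]
    congr 1
    push_cast
    ring
  have e2 : ((H : ℝ) ^ η) ^ 2 ≤ (N ^ η) ^ 2 :=
    pow_le_pow_left₀ (Real.rpow_nonneg hH0 _) (Real.rpow_le_rpow hH0 hHN hη.le) 2
  have e3 : 2 * C ^ 3 ≤ (2 * C ^ 2) ^ 2 := by nlinarith [pow_pos (by linarith : 0 < C) 3]
  have e4 : (0 : ℝ) ≤ ((H : ℝ) ^ η) ^ 2 := sq_nonneg _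
  calc 2 * (C * (H : ℝ) ^ (2 * η / 3)) ^ 3 * (A.card : ℝ) ^ 2
      = 2 * C ^ 3 * ((H : ℝ) ^ η) ^ 2 * (A.card : ℝ) ^ 2 := by rw [mul_pow, e1]; ring
    _ ≤ (2 * C ^ 2) ^ 2 * (N ^ η) ^ 2 * (A.card : ℝ) ^ 2 := by
        apply mul_le_mul_of_nonneg_right _ (sq_nonneg _)
        exact mul_le_mul e3 e2 e4 (sq_nonneg _)
    _ = (2 * C ^ 2 * N ^ η * A.card) ^ 2 := by ring

theorem main3 (ε : ℝ) (hε : 0 < ε) : ∃ C : ℝ, 1 ≤ C ∧ ∀ (ρ H : ℕ) (g : Fin ρ → ℚ) (A : Finset ℚ),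
    1 ≤ H → (∀ i, g i ≠ 0) →
    (∀ a ∈ A, ∃ (e : Fin ρ → ℤ) (y : ℚ), |y.num| ≤ (H : ℤ) ∧ y.den ≤ H ∧
      a = ((∏ i, g i ^ e i) * y) ^ 2) →
    (((A ×ˢ A ×ˢ A ×ˢ A).filter
        (fun x : ℚ × ℚ × ℚ × ℚ => x.1 + x.2.1 = x.2.2.1 + x.2.2.2)).card : ℝ)
      ≤ C ^ (ρ + 1) * (H : ℝ) ^ ε * (A.card : ℝ) ^ 2 := by
  obtain ⟨η, hηd⟩ : ∃ η : ℝ, η = ε / 4 := ⟨_, rfl⟩
  have hη : 0 < η := by rw [hηd]; positivity
  obtain ⟨B, hB1, hB⟩ := base_bound η hη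
  obtain ⟨L, hL⟩ : ∃ L : ℝ, L = 2 / (1 - (2 : ℝ) ^ (-η)) := ⟨_, rfl⟩
  have hx0 : (0 : ℝ) < (2 : ℝ) ^ (-η) := Real.rpow_pos_of_pos (by norm_num) _
  have hx1 : (2 : ℝ) ^ (-η) < 1 := Real.rpow_lt_one_of_one_lt_of_neg (by norm_num) (by linarith)
  have hL1 : 1 ≤ L := by
    rw [hL, le_div_iff₀ (by linarith)]
    linarith
  refine ⟨max ((6 * L) ^ 2) (B ^ 2), le_max_of_le_right (by nlinarith), ?_⟩
  intro ρ H g A hH hg hA
  have hH1 : (1 : ℝ) ≤ H := by exact_mod_cast hH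
  have hH0 : (0 : ℝ) ≤ H := by linarith
  have hN : (1 : ℝ) ≤ (H : ℝ) ^ 2 := one_le_pow₀ hH1
  have h1 := grp_bound g hg η B L hη (by linarith) hL hL1 hB ρ ⊤ (by
    rw [finrank_top, Module.finrank_fin_fun]) ((H : ℝ) ^ 2) hN 1 A one_ne_zero (by
    intro a ha
    obtain ⟨e, y, h1, h2, h3⟩ := hA a ha
    refine ⟨e, Submodule.mem_top, y, ?_, ?_⟩
    · have h4 : y.num.natAbs ≤ H := by
        have : ((y.num.natAbs : ℕ) : ℤ) ≤ (H : ℤ) := by rw [Int.natCast_natAbs]; exact h1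
        exact_mod_cast this
      have h5 : ht y ≤ H * H := Nat.mul_le_mul h4 h2
      have h6 : (ht y : ℝ) ≤ ((H * H : ℕ) : ℝ) := by exact_mod_cast h5
      push_cast at h6
      nlinarith
    · rw [h3]
      unfold gp
      ring)
  rw [Ep_frozen]
  have hs0 : 0 ≤ Real.sqrt (Ep A) := Real.sqrt_nonneg _
  have h2 := pow_le_pow_left₀ hs0 h1 2
  rw [Real.sq_sqrt (Nat.cast_nonneg _)] at h2
  refine h2.trans ?_
  have e1 : (((H : ℝ) ^ 2) ^ η) ^ 2 = (H : ℝ) ^ ε := by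
    rw [← Real.rpow_natCast, ← Real.rpow_natCast, ← Real.rpow_mul hH0, ← Real.rpow_mul hH0]
    congr 1
    rw [hηd]
    push_cast
    ring
  have e2 : ((6 * L) ^ ρ * (B * ((H : ℝ) ^ 2) ^ η) * (A.card : ℝ)) ^ 2
      = ((6 * L) ^ 2) ^ ρ * B ^ 2 * (H : ℝ) ^ ε * (A.card : ℝ) ^ 2 := by
    rw [← e1]
    generalize 6 * L = Z
    ring
  rw [e2]
  have hm : (0 : ℝ) ≤ (6 * L) ^ 2 := sq_nonneg _
  have e3 : ((6 * L) ^ 2) ^ ρ * B ^ 2 ≤ (max ((6 * L) ^ 2) (B ^ 2)) ^ (ρ + 1) := by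
    rw [pow_succ]
    exact mul_le_mul (pow_le_pow_left₀ hm (le_max_left _ _) ρ) (le_max_right _ _) (sq_nonneg _)
      (pow_nonneg (le_max_of_le_left hm) _)
  have e4 : (0 : ℝ) ≤ (H : ℝ) ^ ε := Real.rpow_nonneg hH0 _
  apply mul_le_mul_of_nonneg_right _ (sq_nonneg _)
  exact mul_le_mul_of_nonneg_right e3 e4

theorem main4 (ε K : ℝ) (hε : 0 < ε) (hK : 0 < K) : ∃ c C : ℝ, 0 < c ∧ 0 < C ∧
    ∀ (ρ : ℕ) (g : Fin ρ → ℚ) (A : Finset ℚ),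
    (∀ i, g i ≠ 0) → (ρ : ℝ) ≤ c * Real.log A.card →
    (∀ a ∈ A, ∃ (e : Fin ρ → ℤ) (y : ℚ), ((|y.num| : ℤ) : ℝ) ≤ (A.card : ℝ) ^ K ∧
      (y.den : ℝ) ≤ (A.card : ℝ) ^ K ∧ a = ((∏ i, g i ^ e i) * y) ^ 2) →
    (((A ×ˢ A ×ˢ A ×ˢ A).filter
        (fun x : ℚ × ℚ × ℚ × ℚ => x.1 + x.2.1 = x.2.2.1 + x.2.2.2)).card : ℝ)
      ≤ C * (A.card : ℝ) ^ (2 + ε) := by
  obtain ⟨C, hC1, hC⟩ := main3 (ε / (2 * K)) (by positivity)
  have hlC : 0 ≤ Real.log C := Real.log_nonneg hC1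
  refine ⟨ε / (2 * (Real.log C + 1)), C, by positivity, by linarith, ?_⟩
  intro ρ g A hg hρ hA
  rcases A.eq_empty_or_nonempty with h0 | hne
  · subst h0
    simp
    positivity
  have hn : 1 ≤ A.card := Finset.card_pos.mpr hne
  have hn1 : (1 : ℝ) ≤ (A.card : ℝ) := by exact_mod_cast hn
  have hX1 : (1 : ℝ) ≤ (A.card : ℝ) ^ K := Real.one_le_rpow hn1 hK.le
  obtain ⟨H, hH⟩ : ∃ H : ℕ, H = ⌊(A.card : ℝ) ^ K⌋₊ := ⟨_, rfl⟩
  have hH1 : 1 ≤ H := by rw [hH]; exact Nat.le_floor (by exact_mod_cast hX1)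
  have hHle : (H : ℝ) ≤ (A.card : ℝ) ^ K := by rw [hH]; exact Nat.floor_le (by linarith)
  have h1 := hC ρ H g A hH1 hg (by
    intro a ha
    obtain ⟨e, x, h1, h2, h3⟩ := hA a ha
    refine ⟨e, x, ?_, ?_, h3⟩
    · have e1 : ((x.num.natAbs : ℕ) : ℝ) ≤ (A.card : ℝ) ^ K := by
        have : ((x.num.natAbs : ℕ) : ℝ) = ((|x.num| : ℤ) : ℝ) := by
          rw [Nat.cast_natAbs]
        rw [this]; exact h1
      have e2 : x.num.natAbs ≤ H := by rw [hH]; exact Nat.le_floor e1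
      have e3 : ((x.num.natAbs : ℕ) : ℤ) ≤ (H : ℤ) := by exact_mod_cast e2
      rwa [Int.natCast_natAbs] at e3
    · rw [hH]; exact Nat.le_floor h2)
  refine h1.trans ?_
  have h2 : (H : ℝ) ^ (ε / (2 * K)) ≤ (A.card : ℝ) ^ (ε / 2) := by
    calc (H : ℝ) ^ (ε / (2 * K)) ≤ ((A.card : ℝ) ^ K) ^ (ε / (2 * K)) :=
          Real.rpow_le_rpow (Nat.cast_nonneg _) hHle (by positivity)
      _ = (A.card : ℝ) ^ (ε / 2) := by
          rw [← Real.rpow_mul (by linarith)]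
          congr 1
          field_simp
  have h4 : C ^ ρ ≤ (A.card : ℝ) ^ (ε / 2) := by
    have hln : 0 ≤ Real.log A.card := Real.log_nonneg hn1
    have e1 : C ^ ρ = Real.exp (Real.log C * ρ) := by
      rw [Real.exp_mul, Real.exp_log (by linarith), Real.rpow_natCast]
    have e2 : (A.card : ℝ) ^ (ε / 2) = Real.exp (Real.log A.card * (ε / 2)) :=
      Real.rpow_def_of_pos (by linarith) _
    rw [e1, e2]
    apply Real.exp_le_exp.mpr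
    have e3 : Real.log C * ρ ≤ Real.log C * (ε / (2 * (Real.log C + 1)) * Real.log A.card) :=
      mul_le_mul_of_nonneg_left hρ hlC
    have e4 : Real.log C * (ε / (2 * (Real.log C + 1)) * Real.log A.card)
        ≤ (Real.log C + 1) * (ε / (2 * (Real.log C + 1)) * Real.log A.card) := by
      apply mul_le_mul_of_nonneg_right (by linarith) (by positivity)
    have e5 : (Real.log C + 1) * (ε / (2 * (Real.log C + 1)) * Real.log A.card)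
        = Real.log A.card * (ε / 2) := by
      field_simp
    linarith
  have h3 : (A.card : ℝ) ^ (2 + ε)
      = (A.card : ℝ) ^ (ε / 2) * (A.card : ℝ) ^ (ε / 2) * (A.card : ℝ) ^ 2 := by
    rw [← Real.rpow_add (by linarith), ← Real.rpow_two, ← Real.rpow_add (by linarith)]
    congr 1
    ring
  rw [h3, pow_succ]
  have hC0 : 0 ≤ C := by linarith
  have hq : (0 : ℝ) ≤ (H : ℝ) ^ (ε / (2 * K)) := Real.rpow_nonneg (Nat.cast_nonneg _) _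
  have hq2 : (0 : ℝ) ≤ (A.card : ℝ) ^ (ε / 2) := Real.rpow_nonneg (by linarith) _
  calc C ^ ρ * C * (H : ℝ) ^ (ε / (2 * K)) * (A.card : ℝ) ^ 2
      = C * (C ^ ρ * (H : ℝ) ^ (ε / (2 * K))) * (A.card : ℝ) ^ 2 := by ring
    _ ≤ C * ((A.card : ℝ) ^ (ε / 2) * (A.card : ℝ) ^ (ε / 2)) * (A.card : ℝ) ^ 2 := by
        apply mul_le_mul_of_nonneg_right _ (sq_nonneg _)
        exact mul_le_mul_of_nonneg_left (mul_le_mul h4 h2 hq hq2) hC0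
    _ = _ := by ring

end H41SQ
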