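import Mathlib

set_option autoImplicit false

open Finset

namespace H41SQ

theorem dl_ex (s : ℚ) : ∃ k : ℕ, 0 < k ∧ s.den ∣ k ^ 2 :=
  ⟨s.den, s.den_pos, Dvd.intro _ (pow_two _).symm⟩

/-- The least `k ≥ 1` such that `k ^ 2 * s` is an integer. -/
noncomputable def dl (s : ℚ) : ℕ := Nat.find (dl_ex s)

theorem dl_pos (s : ℚ) : 0 < dl s := (Nat.find_spec (dl_ex s)).1

theorem dl_sq (s : ℚ) : s.den ∣ dl s ^ 2 := (Nat.find_spec (dl_ex s)).2

theorem dl_dvd (s : ℚ) (M : ℕ) (h : s.den ∣ M ^ 2) : dl s ∣ M := by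
  have h1 : s.den ∣ (Nat.gcd (dl s) M) ^ 2 := by
    rw [← Nat.pow_gcd_pow]
    exact Nat.dvd_gcd (dl_sq s) h
  have h2 : 0 < Nat.gcd (dl s) M := Nat.gcd_pos_of_pos_left _ (dl_pos s)
  have h3 : dl s ≤ Nat.gcd (dl s) M := Nat.find_min' (dl_ex s) ⟨h2, h1⟩
  have h4 : Nat.gcd (dl s) M = dl s :=
    le_antisymm (Nat.le_of_dvd (dl_pos s) (Nat.gcd_dvd_left _ _)) h3
  rw [← h4]
  exact Nat.gcd_dvd_right _ _

theorem den_dvd_sq (s : ℚ) (k : ℕ) (hk : 0 < k) (t : ℤ) (h : (k : ℚ) ^ 2 * s = t) :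
    s.den ∣ k ^ 2 := by
  have hk0 : (k : ℚ) ≠ 0 := by exact_mod_cast hk.ne'
  have h1 : s = (t : ℚ) / ((k ^ 2 : ℤ) : ℚ) := by
    push_cast
    rw [← h]
    field_simp
  have h2 := Rat.den_dvd t (k ^ 2 : ℤ)
  rw [Rat.divInt_eq_div, ← h1] at h2
  exact_mod_cast h2

theorem int_of_den (s : ℚ) (k : ℕ) (h : s.den ∣ k ^ 2) : ∃ t : ℤ, (k : ℚ) ^ 2 * s = t := by
  obtain ⟨c, hc⟩ := h
  refine ⟨c * s.num, ?_⟩
  have h1 : ((k ^ 2 : ℕ) : ℚ) = (s.den : ℚ) * c := by rw [hc]; push_cast; ring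
  push_cast at h1
  rw [h1]
  have h2 : (s.den : ℚ) * s = s.num := by
    rw [mul_comm]; exact Rat.mul_den_eq_num s
  push_cast
  linear_combination (c : ℚ) * h2

theorem rep (x z : ℚ) : ∃ (g β γ : ℕ), 0 < g ∧ 0 < β ∧ 0 < γ ∧ x.den = g * β ∧ z.den = g * γ ∧
    Nat.Coprime β γ ∧ Nat.lcm x.den z.den = g * β * γ := by
  obtain ⟨β, γ, h1, h2, h3⟩ := Nat.exists_coprime x.den z.den
  have hg : 0 < Nat.gcd x.den z.den := Nat.gcd_pos_of_pos_left _ x.den_pos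
  have hb : 0 < β := by
    rcases Nat.eq_zero_or_pos β with h | h
    · exfalso; rw [h, zero_mul] at h2; exact absurd h2 x.den_pos.ne'
    · exact h
  have hc : 0 < γ := by
    rcases Nat.eq_zero_or_pos γ with h | h
    · exfalso; rw [h, zero_mul] at h3; exact absurd h3 z.den_pos.ne'
    · exact h
  refine ⟨Nat.gcd x.den z.den, β, γ, hg, hb, hc, by rw [mul_comm]; exact h2,
    by rw [mul_comm]; exact h3, h1, ?_⟩
  have h4 : Nat.gcd x.den z.den * Nat.lcm x.den z.den = x.den * z.den := Nat.gcd_mul_lcm _ _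
  have h5 : Nat.gcd x.den z.den * Nat.lcm x.den z.den
      = Nat.gcd x.den z.den * (Nat.gcd x.den z.den * β * γ) := by
    rw [h4]
    calc x.den * z.den = (β * Nat.gcd x.den z.den) * (γ * Nat.gcd x.den z.den) := by
          rw [← h2, ← h3]
      _ = _ := by ring
  exact Nat.eq_of_mul_eq_mul_left hg h5

theorem key (x z : ℚ) (k : ℕ) (hk : k ∣ Nat.lcm x.den z.den) (hs : (x ^ 2 - z ^ 2).den ∣ k ^ 2) :
    (Nat.lcm x.den z.den / k) ∣ x.den ∧ (Nat.lcm x.den z.den / k) ∣ z.den := by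
  obtain ⟨g, β, γ, hg, hβ, hγ, hb, hd, hco, hM⟩ := rep x z
  obtain ⟨h, hh⟩ := hk
  have hMpos : 0 < Nat.lcm x.den z.den := Nat.lcm_pos x.den_pos z.den_pos
  have hk0 : 0 < k := by
    rcases Nat.eq_zero_or_pos k with h0 | h0
    · rw [h0, zero_mul] at hh; omega
    · exact h0
  have hdiv : Nat.lcm x.den z.den / k = h := by
    rw [hh]; exact Nat.mul_div_cancel_left h hk0
  rw [hdiv]
  obtain ⟨t, ht⟩ := int_of_den _ k hs
  have hx : (x.den : ℚ) * x = x.num := by rw [mul_comm]; exact Rat.mul_den_eq_num x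
  have hz : (z.den : ℚ) * z = z.num := by rw [mul_comm]; exact Rat.mul_den_eq_num z
  rw [hb] at hx
  rw [hd] at hz
  push_cast at hx hz
  have hMq : (k : ℚ) * h = g * β * γ := by
    have : ((k * h : ℕ) : ℚ) = ((g * β * γ : ℕ) : ℚ) := by rw [← hh, hM]
    push_cast at this
    exact this
  -- N = t h^2
  have hN : ((x.num * γ) ^ 2 - (z.num * β) ^ 2 : ℚ) = t * h ^ 2 := by
    rw [← ht, ← hx, ← hz]
    linear_combination (-(x ^ 2 - z ^ 2) * ((k : ℚ) * h + g * β * γ)) * hMq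
  have hN' : (x.num * γ) ^ 2 - (z.num * β) ^ 2 = t * (h : ℤ) ^ 2 := by exact_mod_cast hN
  have cx : IsCoprime (x.num) (x.den : ℤ) := by
    rw [Int.isCoprime_iff_gcd_eq_one]
    have := x.reduced
    simpa [Int.gcd, Nat.Coprime] using this
  have cz : IsCoprime (z.num) (z.den : ℤ) := by
    rw [Int.isCoprime_iff_gcd_eq_one]
    have := z.reduced
    simpa [Int.gcd, Nat.Coprime] using this
  have cbg : IsCoprime (β : ℤ) (γ : ℤ) := Nat.isCoprime_iff_coprime.mpr hco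
  have cxβ : IsCoprime x.num (β : ℤ) := by
    rw [hb] at cx
    push_cast at cx
    exact cx.of_mul_right_right
  have czγ : IsCoprime z.num (γ : ℤ) := by
    rw [hd] at cz
    push_cast at cz
    exact cz.of_mul_right_right
  have c1 : IsCoprime (h : ℤ) (β : ℤ) := by
    have e1 : IsCoprime ((x.num * γ) ^ 2) (β : ℤ) := (IsCoprime.mul_left cxβ cbg.symm).pow_left
    have e2 : (x.num * γ) ^ 2 = t * (h : ℤ) ^ 2 + (z.num ^ 2 * β) * β := by
      linear_combination hN'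
    rw [e2] at e1
    have e3 : IsCoprime (t * (h : ℤ) ^ 2) (β : ℤ) := e1.of_add_mul_right_left
    have e4 : IsCoprime ((h : ℤ) ^ 2) (β : ℤ) := e3.of_mul_left_right
    exact (IsCoprime.pow_left_iff (by norm_num)).mp e4
  have c2 : IsCoprime (h : ℤ) (γ : ℤ) := by
    have e1 : IsCoprime ((z.num * β) ^ 2) (γ : ℤ) := (IsCoprime.mul_left czγ cbg).pow_left
    have e2 : (z.num * β) ^ 2 = -(t * (h : ℤ) ^ 2) + (x.num ^ 2 * γ) * γ := by
      linear_combination -hN'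
    rw [e2] at e1
    have e3 : IsCoprime (-(t * (h : ℤ) ^ 2)) (γ : ℤ) := e1.of_add_mul_right_left
    rw [IsCoprime.neg_left_iff] at e3
    have e4 : IsCoprime ((h : ℤ) ^ 2) (γ : ℤ) := e3.of_mul_left_right
    exact (IsCoprime.pow_left_iff (by norm_num)).mp e4
  have hg' : h ∣ g := by
    have d1 : h ∣ g * β * γ := by rw [← hM, hh]; exact Dvd.intro_left _ rfl
    have d2 : h ∣ g * β := Nat.Coprime.dvd_of_dvd_mul_right (Nat.isCoprime_iff_coprime.mp c2) d1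
    exact Nat.Coprime.dvd_of_dvd_mul_right (Nat.isCoprime_iff_coprime.mp c1) d2
  rw [hb, hd]
  exact ⟨Dvd.dvd.mul_right hg' β, Dvd.dvd.mul_right hg' γ⟩

end H41SQ
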