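import Pool.Agent.H41.SQ.Pol

set_option autoImplicit false

open Finset

namespace H41SQ

def MM (p : ℚ × ℚ) : ℕ := Nat.lcm p.1.den p.2.den

def sd (p : ℚ × ℚ) : ℚ := p.1 ^ 2 - p.2 ^ 2

noncomputable def hh (p : ℚ × ℚ) : ℕ := MM p / dl (sd p)

theorem MM_pos (p : ℚ × ℚ) : 0 < MM p := Nat.lcm_pos p.1.den_pos p.2.den_pos

theorem int_mul (x : ℚ) (M : ℕ) (h : x.den ∣ M) : ∃ u : ℤ, (M : ℚ) * x = u := by
  obtain ⟨c, rfl⟩ := h
  refine ⟨c * x.num, ?_⟩
  have h2 : (x.den : ℚ) * x = x.num := by rw [mul_comm]; exact Rat.mul_den_eq_num x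
  push_cast
  linear_combination (c : ℚ) * h2

theorem MM_int (p : ℚ × ℚ) : ∃ u v : ℤ, (MM p : ℚ) * p.1 = u ∧ (MM p : ℚ) * p.2 = v := by
  obtain ⟨u, hu⟩ := int_mul p.1 (MM p) (Nat.dvd_lcm_left _ _)
  obtain ⟨v, hv⟩ := int_mul p.2 (MM p) (Nat.dvd_lcm_right _ _)
  exact ⟨u, v, hu, hv⟩

theorem den_dvd_MM (p : ℚ × ℚ) : (sd p).den ∣ MM p ^ 2 := by
  obtain ⟨u, v, hu, hv⟩ := MM_int p
  refine den_dvd_sq (sd p) (MM p) (MM_pos p) (u ^ 2 - v ^ 2) ?_
  push_cast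
  rw [← hu, ← hv]
  unfold sd
  ring

theorem dl_dvd_MM (p : ℚ × ℚ) : dl (sd p) ∣ MM p := dl_dvd _ _ (den_dvd_MM p)

theorem MM_eq (p : ℚ × ℚ) : MM p = dl (sd p) * hh p := by
  unfold hh
  exact (Nat.mul_div_cancel' (dl_dvd_MM p)).symm

theorem hh_dvd (p : ℚ × ℚ) : hh p ∣ p.1.den ∧ hh p ∣ p.2.den :=
  key p.1 p.2 (dl (sd p)) (dl_dvd_MM p) (dl_sq (sd p))

theorem hh_pos (p : ℚ × ℚ) : 0 < hh p := by
  rcases Nat.eq_zero_or_pos (hh p) with h | h
  · exfalso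
    have := MM_eq p
    rw [h, mul_zero] at this
    exact absurd this (MM_pos p).ne'
  · exact h

/-- ordered pairs of different elements -/
def PP (X : Finset ℚ) : Finset (ℚ × ℚ) := (X ×ˢ X).filter (fun p => p.1 ≠ p.2)

theorem mem_PP {X : Finset ℚ} {p : ℚ × ℚ} : p ∈ PP X ↔ (p.1 ∈ X ∧ p.2 ∈ X) ∧ p.1 ≠ p.2 := by
  unfold PP
  rw [Finset.mem_filter, Finset.mem_product]

theorem le_H {H : ℕ} {x : ℚ} (h0 : 0 ≤ x) (h1 : x.num ≤ (H : ℤ)) : x ≤ H := by
  have h2 : (x.den : ℚ) * x = x.num := by rw [mul_comm]; exact Rat.mul_den_eq_num x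
  have h3 : (1 : ℚ) ≤ x.den := by exact_mod_cast x.den_pos
  have h4 : (x.num : ℚ) ≤ H := by exact_mod_cast h1
  nlinarith

theorem fib_bound {H : ℕ} {X : Finset ℚ} (hX : ∀ x ∈ X, 0 ≤ x ∧ x.num ≤ (H : ℤ) ∧ x.den ≤ H)
    {p : ℚ × ℚ} (hp : p ∈ PP X) (t : ℤ) (ht : (MM p : ℚ) ^ 2 * sd p = t) :
    1 ≤ t.natAbs ∧ t.natAbs ≤ H ^ 6 := by
  rw [mem_PP] at hp
  obtain ⟨⟨h1, h2⟩, hne⟩ := hp
  obtain ⟨a0, a1, a2⟩ := hX _ h1
  obtain ⟨b0, b1, b2⟩ := hX _ h2
  have xa := le_H a0 a1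
  have xb := le_H b0 b1
  have hM0 : (0 : ℚ) < MM p := by exact_mod_cast MM_pos p
  have hs : sd p ≠ 0 := by
    unfold sd
    intro h
    have e : (p.1 - p.2) * (p.1 + p.2) = 0 := by linear_combination h
    rcases mul_eq_zero.mp e with e | e
    · exact hne (by linarith)
    · exact hne (by
        have : p.1 = 0 := by linarith
        have : p.2 = 0 := by linarith
        linarith)
  have ht0 : t ≠ 0 := by
    intro h
    rw [h] at ht
    push_cast at ht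
    have : (MM p : ℚ) ^ 2 ≠ 0 := by positivity
    exact hs ((mul_eq_zero.mp ht).resolve_left this)
  refine ⟨Int.natAbs_pos.mpr ht0, ?_⟩
  have hMle : (MM p : ℚ) ≤ (H : ℚ) * H := by
    have : MM p ≤ H * H := by
      calc MM p ≤ p.1.den * p.2.den := Nat.le_of_dvd (Nat.mul_pos p.1.den_pos p.2.den_pos)
            (Nat.lcm_dvd_mul _ _)
        _ ≤ H * H := Nat.mul_le_mul a2 b2
    exact_mod_cast this
  have hH0 : (0 : ℚ) ≤ H := Nat.cast_nonneg _
  have habs : |sd p| ≤ (H : ℚ) ^ 2 := by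
    unfold sd
    rw [abs_le]
    constructor <;> nlinarith
  have h3 : |(t : ℚ)| ≤ (H : ℚ) ^ 6 := by
    rw [← ht, abs_mul, abs_of_nonneg (by positivity)]
    calc (MM p : ℚ) ^ 2 * |sd p| ≤ ((H : ℚ) * H) ^ 2 * (H : ℚ) ^ 2 := by
          apply mul_le_mul (pow_le_pow_left₀ hM0.le hMle 2) habs (abs_nonneg _) (by positivity)
      _ = (H : ℚ) ^ 6 := by ring
  have h4 : ((t.natAbs : ℕ) : ℚ) = |(t : ℚ)| := by
    rw [← Int.cast_abs, Nat.cast_natAbs]
  have h5 : ((t.natAbs : ℕ) : ℚ) ≤ ((H ^ 6 : ℕ) : ℚ) := by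
    rw [h4]; push_cast; exact h3
  exact_mod_cast h5

theorem fib {H : ℕ} {X : Finset ℚ} (hX : ∀ x ∈ X, 0 ≤ x ∧ x.num ≤ (H : ℤ) ∧ x.den ≤ H) (T : ℝ)
    (hT0 : 0 ≤ T) (hT : ∀ N : ℕ, 1 ≤ N → N ≤ H ^ 6 → (N.divisors.card : ℝ) ≤ T) (s : ℚ) (h : ℕ) :
    (((PP X).filter (fun p => sd p = s ∧ hh p = h)).card : ℝ) ≤ T := by
  classical
  rcases ((PP X).filter (fun p => sd p = s ∧ hh p = h)).eq_empty_or_nonempty with he | ⟨p0, hp0⟩
  · rw [he]; simpa using hT0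
  rw [Finset.mem_filter] at hp0
  obtain ⟨hp0, hs0, hh0⟩ := hp0
  obtain ⟨M, hM⟩ : ∃ M : ℕ, M = dl s * h := ⟨_, rfl⟩
  have hM0 : MM p0 = M := by rw [MM_eq, hs0, hh0, hM]
  have hMpos : 0 < M := by rw [← hM0]; exact MM_pos p0
  have hMq : (0 : ℚ) < M := by exact_mod_cast hMpos
  obtain ⟨t, ht⟩ := int_of_den (sd p0) (MM p0) (den_dvd_MM p0)
  obtain ⟨ht1, ht6⟩ := fib_bound hX hp0 t ht
  refine le_trans ?_ (hT _ ht1 ht6)
  rw [hM0, hs0] at ht
  have hmap : ∀ p ∈ (PP X).filter (fun p => sd p = s ∧ hh p = h),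
      ∃ w : ℤ, (M : ℚ) * (p.1 + p.2) = w ∧ 0 < w ∧ w ∣ t := by
    intro p hp
    rw [Finset.mem_filter] at hp
    obtain ⟨hp, hs, hhp⟩ := hp
    have hMp : MM p = M := by rw [MM_eq, hs, hhp, hM]
    obtain ⟨u, v, hu, hv⟩ := MM_int p
    rw [hMp] at hu hv
    rw [mem_PP] at hp
    obtain ⟨⟨h1, h2⟩, hne⟩ := hp
    have a0 := (hX _ h1).1
    have b0 := (hX _ h2).1
    refine ⟨u + v, by push_cast; linear_combination hu + hv, ?_, ⟨u - v, ?_⟩⟩
    · have hpos : 0 < p.1 + p.2 := by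
        rcases lt_or_eq_of_le (add_nonneg a0 b0) with h | h
        · exact h
        · exfalso
          apply hne
          have : p.1 = 0 := by linarith
          have : p.2 = 0 := by linarith
          linarith
      have : (0 : ℚ) < ((u + v : ℤ) : ℚ) := by
        push_cast
        rw [← hu, ← hv, ← mul_add]
        positivity
      exact_mod_cast this
    · have : (t : ℚ) = (u + v) * (u - v) := by
        rw [← ht, ← hs, ← hu, ← hv]
        unfold sd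
        ring
      exact_mod_cast this
  have hcard : ((PP X).filter (fun p => sd p = s ∧ hh p = h)).card ≤ (t.natAbs.divisors).card := by
    apply Finset.card_le_card_of_injOn (fun p => ((M : ℚ) * (p.1 + p.2)).num.natAbs)
    · intro p hp
      obtain ⟨w, hw, hw0, hwd⟩ := hmap p hp
      simp only [hw, Rat.num_intCast, Finset.mem_coe, Nat.mem_divisors]
      exact ⟨Int.natAbs_dvd_natAbs.mpr hwd, by omega⟩
    · intro p hp p' hp' heq
      obtain ⟨w, hw, hw0, -⟩ := hmap p hp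
      obtain ⟨w', hw', hw0', -⟩ := hmap p' hp'
      simp only [hw, hw', Rat.num_intCast] at heq
      have hww : w = w' := by omega
      have hsum : p.1 + p.2 = p'.1 + p'.2 := by
        have : (M : ℚ) * (p.1 + p.2) = (M : ℚ) * (p'.1 + p'.2) := by rw [hw, hw', hww]
        exact mul_left_cancel₀ hMq.ne' this
      have hpos : 0 < p.1 + p.2 := by
        have : (0 : ℚ) < (M : ℚ) * (p.1 + p.2) := by rw [hw]; exact_mod_cast hw0
        exact (mul_pos_iff_of_pos_left hMq).mp this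
      rw [Finset.mem_coe, Finset.mem_filter] at hp hp'
      have hss : p.1 ^ 2 - p.2 ^ 2 = p'.1 ^ 2 - p'.2 ^ 2 := by
        have e1 := hp.2.1
        have e2 := hp'.2.1
        unfold sd at e1 e2
        rw [e1, e2]
      have hdiff : p.1 - p.2 = p'.1 - p'.2 := by
        have e : (p.1 + p.2) * (p.1 - p.2) = (p.1 + p.2) * (p'.1 - p'.2) := by
          have e' : (p.1 + p.2) * (p'.1 - p'.2) = (p'.1 + p'.2) * (p'.1 - p'.2) := by rw [hsum]
          rw [e']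
          linear_combination hss
        exact mul_left_cancel₀ hpos.ne' e
      exact Prod.ext (by linarith) (by linarith)
  exact_mod_cast hcard

end H41SQ
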