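import Pool.Agent.H41.SQ.Pol2

set_option autoImplicit false

open Finset

namespace H41SQ

/-- Number of elements of `X` whose denominator is divisible by `h`. -/
def Nh (X : Finset ℚ) (h : ℕ) : ℕ := (X.filter (fun x => h ∣ x.den)).card

theorem sum_Nh (X : Finset ℚ) (I : Finset ℕ) (T : ℝ)
    (hT : ∀ x ∈ X, (x.den.divisors.card : ℝ) ≤ T) :
    ∑ h ∈ I, (Nh X h : ℝ) ≤ X.card * T := by
  have e : ∑ h ∈ I, (Nh X h : ℝ) = ∑ x ∈ X, ((I.filter (fun h => h ∣ x.den)).card : ℝ) := by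
    unfold Nh
    simp only [Finset.card_filter]
    push_cast
    rw [Finset.sum_comm]
  rw [e]
  calc ∑ x ∈ X, ((I.filter (fun h => h ∣ x.den)).card : ℝ) ≤ ∑ x ∈ X, T := by
        apply Finset.sum_le_sum
        intro x hx
        refine le_trans ?_ (hT x hx)
        have : (I.filter (fun h => h ∣ x.den)).card ≤ x.den.divisors.card := by
          apply Finset.card_le_card
          intro h hh
          rw [Finset.mem_filter] at hh
          rw [Nat.mem_divisors]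
          exact ⟨hh.2, x.den_pos.ne'⟩
        exact_mod_cast this
    _ = X.card * T := by rw [Finset.sum_const, nsmul_eq_mul]

/-- the weight of a pair -/
noncomputable def mm (X : Finset ℚ) (p : ℚ × ℚ) : ℝ := (Nh X (hh p) : ℝ)

theorem mm_one {X : Finset ℚ} {p : ℚ × ℚ} (hp : p ∈ PP X) : 1 ≤ mm X p := by
  rw [mem_PP] at hp
  have : 1 ≤ Nh X (hh p) := by
    unfold Nh
    apply Finset.card_pos.mpr
    exact ⟨p.1, Finset.mem_filter.mpr ⟨hp.1.1, (hh_dvd p).1⟩⟩
  unfold mm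
  exact_mod_cast this

theorem stepA {H : ℕ} {X : Finset ℚ} (hX : ∀ x ∈ X, 0 ≤ x ∧ x.num ≤ (H : ℤ) ∧ x.den ≤ H) (T : ℝ)
    (hT0 : 0 ≤ T) (hT : ∀ N : ℕ, 1 ≤ N → N ≤ H ^ 6 → (N.divisors.card : ℝ) ≤ T)
    (hTd : ∀ x ∈ X, (x.den.divisors.card : ℝ) ≤ T) (s : ℚ) :
    ∑ p ∈ (PP X).filter (fun p => s = sd p), mm X p ≤ X.card * T ^ 2 := by
  classical
  obtain ⟨R, hR⟩ : ∃ R, R = (PP X).filter (fun p => s = sd p) := ⟨_, rfl⟩
  rw [← hR]
  have h1 : ∑ p ∈ R, mm X p
      = ∑ h ∈ R.image hh, ∑ p ∈ R.filter (fun p => hh p = h), mm X p :=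
    (Finset.sum_fiberwise_of_maps_to (fun p hp => Finset.mem_image_of_mem _ hp) _).symm
  rw [h1]
  calc ∑ h ∈ R.image hh, ∑ p ∈ R.filter (fun p => hh p = h), mm X p
      ≤ ∑ h ∈ R.image hh, T * (Nh X h : ℝ) := by
        apply Finset.sum_le_sum
        intro h _
        have e1 : ∑ p ∈ R.filter (fun p => hh p = h), mm X p
            = ∑ p ∈ R.filter (fun p => hh p = h), (Nh X h : ℝ) := by
          apply Finset.sum_congr rfl
          intro p hp
          rw [Finset.mem_filter] at hp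
          unfold mm
          rw [hp.2]
        rw [e1, Finset.sum_const, nsmul_eq_mul]
        apply mul_le_mul_of_nonneg_right _ (Nat.cast_nonneg _)
        refine le_trans ?_ (fib hX T hT0 hT s h)
        have : (R.filter (fun p => hh p = h)) ⊆ (PP X).filter (fun p => sd p = s ∧ hh p = h) := by
          intro p hp
          rw [hR, Finset.mem_filter, Finset.mem_filter] at hp
          rw [Finset.mem_filter]
          exact ⟨hp.1.1, hp.1.2.symm, hp.2⟩
        exact_mod_cast Finset.card_le_card this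
    _ = T * ∑ h ∈ R.image hh, (Nh X h : ℝ) := by rw [Finset.mul_sum]
    _ ≤ T * (X.card * T) := mul_le_mul_of_nonneg_left (sum_Nh X _ T hTd) hT0
    _ = X.card * T ^ 2 := by ring

theorem stepC (X : Finset ℚ) (T : ℝ) (hTd : ∀ x ∈ X, (x.den.divisors.card : ℝ) ≤ T) :
    ∑ p ∈ PP X, 1 / mm X p ≤ X.card * T := by
  classical
  have h1 : ∑ p ∈ PP X, 1 / mm X p
      = ∑ h ∈ (PP X).image hh, ∑ p ∈ (PP X).filter (fun p => hh p = h), 1 / mm X p :=
    (Finset.sum_fiberwise_of_maps_to (fun p hp => Finset.mem_image_of_mem _ hp) _).symm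
  rw [h1]
  refine le_trans (Finset.sum_le_sum ?_) (sum_Nh X ((PP X).image hh) T hTd)
  intro h hh'
  have e1 : ∑ p ∈ (PP X).filter (fun p => hh p = h), 1 / mm X p
      = ∑ p ∈ (PP X).filter (fun p => hh p = h), 1 / (Nh X h : ℝ) := by
    apply Finset.sum_congr rfl
    intro p hp
    rw [Finset.mem_filter] at hp
    unfold mm
    rw [hp.2]
  rw [e1, Finset.sum_const, nsmul_eq_mul]
  obtain ⟨p0, hp0, rfl⟩ := Finset.mem_image.mp hh'
  have hpos : (1 : ℝ) ≤ Nh X (hh p0) := mm_one hp0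
  have hc : (((PP X).filter (fun p => hh p = hh p0)).card : ℝ)
      ≤ (Nh X (hh p0) : ℝ) * (Nh X (hh p0) : ℝ) := by
    have : (PP X).filter (fun p => hh p = hh p0)
        ⊆ (X.filter (fun x => hh p0 ∣ x.den)) ×ˢ (X.filter (fun x => hh p0 ∣ x.den)) := by
      intro p hp
      rw [Finset.mem_filter, mem_PP] at hp
      obtain ⟨d1, d2⟩ := hh_dvd p
      rw [hp.2] at d1 d2
      rw [Finset.mem_product, Finset.mem_filter, Finset.mem_filter]
      exact ⟨⟨hp.1.1.1, d1⟩, ⟨hp.1.1.2, d2⟩⟩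
    have h2 := Finset.card_le_card this
    rw [Finset.card_product] at h2
    unfold Nh
    exact_mod_cast h2
  calc _ ≤ (Nh X (hh p0) : ℝ) * (Nh X (hh p0) : ℝ) * (1 / (Nh X (hh p0) : ℝ)) :=
        mul_le_mul_of_nonneg_right hc (by positivity)
    _ = _ := by field_simp

theorem off {H : ℕ} {X : Finset ℚ} (hX : ∀ x ∈ X, 0 ≤ x ∧ x.num ≤ (H : ℤ) ∧ x.den ≤ H) (T : ℝ)
    (hT0 : 0 ≤ T) (hT : ∀ N : ℕ, 1 ≤ N → N ≤ H ^ 6 → (N.divisors.card : ℝ) ≤ T)
    (hTd : ∀ x ∈ X, (x.den.divisors.card : ℝ) ≤ T) :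
    (((PP X ×ˢ PP X).filter (fun q => sd q.1 = sd q.2)).card : ℝ) ≤ T ^ 3 * (X.card : ℝ) ^ 2 := by
  classical
  obtain ⟨F, hF⟩ : ∃ F : ℚ × ℚ → ℚ × ℚ → ℝ,
    F = fun p p' => if sd p = sd p' then mm X p' / mm X p else 0 := ⟨_, rfl⟩
  have e0 : (((PP X ×ˢ PP X).filter (fun q => sd q.1 = sd q.2)).card : ℝ)
      = ∑ p ∈ PP X, ∑ p' ∈ PP X, if sd p = sd p' then (1 : ℝ) else 0 := by
    rw [Finset.card_filter, ← Finset.sum_product']
    push_cast
    rfl
  have h1 : ∀ p ∈ PP X, ∀ p' ∈ PP X,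
      2 * (if sd p = sd p' then (1 : ℝ) else 0) ≤ F p p' + F p' p := by
    intro p hp p' hp'
    have a := mm_one hp
    have b := mm_one hp'
    rw [hF]
    simp only
    by_cases h : sd p = sd p'
    · rw [if_pos h, if_pos h, if_pos h.symm, div_add_div _ _ (by linarith) (by linarith),
        le_div_iff₀ (by nlinarith)]
      nlinarith [sq_nonneg (mm X p - mm X p')]
    · rw [if_neg h, if_neg h, if_neg (fun h' => h h'.symm)]
      norm_num
  have h2 : 2 * ∑ p ∈ PP X, ∑ p' ∈ PP X, (if sd p = sd p' then (1 : ℝ) else 0)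
      ≤ 2 * ∑ p ∈ PP X, ∑ p' ∈ PP X, F p p' := by
    have e1 : ∑ p ∈ PP X, ∑ p' ∈ PP X, F p' p = ∑ p ∈ PP X, ∑ p' ∈ PP X, F p p' :=
      Finset.sum_comm
    calc 2 * ∑ p ∈ PP X, ∑ p' ∈ PP X, (if sd p = sd p' then (1 : ℝ) else 0)
        = ∑ p ∈ PP X, ∑ p' ∈ PP X, 2 * (if sd p = sd p' then (1 : ℝ) else 0) := by
          rw [Finset.mul_sum]
          refine Finset.sum_congr rfl (fun p _ => ?_)
          rw [Finset.mul_sum]
      _ ≤ ∑ p ∈ PP X, ∑ p' ∈ PP X, (F p p' + F p' p) :=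
          Finset.sum_le_sum (fun p hp => Finset.sum_le_sum (fun p' hp' => h1 p hp p' hp'))
      _ = ∑ p ∈ PP X, ∑ p' ∈ PP X, F p p' + ∑ p ∈ PP X, ∑ p' ∈ PP X, F p' p := by
          rw [← Finset.sum_add_distrib]
          exact Finset.sum_congr rfl (fun p _ => Finset.sum_add_distrib)
      _ = 2 * ∑ p ∈ PP X, ∑ p' ∈ PP X, F p p' := by rw [e1]; ring
  have h3 : ∑ p ∈ PP X, ∑ p' ∈ PP X, F p p' ≤ T ^ 3 * (X.card : ℝ) ^ 2 := by
    have e2 : ∀ p ∈ PP X, ∑ p' ∈ PP X, F p p' ≤ (X.card * T ^ 2) * (1 / mm X p) := by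
      intro p hp
      have a := mm_one hp
      have e3 : ∑ p' ∈ PP X, F p p'
          = (∑ p' ∈ (PP X).filter (fun p' => sd p = sd p'), mm X p') * (1 / mm X p) := by
        rw [Finset.sum_mul, Finset.sum_filter, hF]
        refine Finset.sum_congr rfl (fun p' _ => ?_)
        simp only
        split_ifs
        · ring
        · rfl
      rw [e3]
      exact mul_le_mul_of_nonneg_right (stepA hX T hT0 hT hTd (sd p)) (by positivity)
    calc ∑ p ∈ PP X, ∑ p' ∈ PP X, F p p' ≤ ∑ p ∈ PP X, (X.card * T ^ 2) * (1 / mm X p) :=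
          Finset.sum_le_sum e2
      _ = (X.card * T ^ 2) * ∑ p ∈ PP X, 1 / mm X p := by rw [Finset.mul_sum]
      _ ≤ (X.card * T ^ 2) * (X.card * T) :=
          mul_le_mul_of_nonneg_left (stepC X T hTd) (by positivity)
      _ = _ := by ring
  rw [e0]
  linarith

end H41SQ
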