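import Pool.Agent.H41.SQ.Grp

set_option autoImplicit false

open Finset

namespace H41SQ

/-- height product -/
def ht (y : ℚ) : ℕ := y.num.natAbs * y.den

theorem strip2 (p : ℕ) [hp : Fact p.Prime] (y : ℚ) (hy : y ≠ 0) :
    ∃ (v : ℤ) (y' : ℚ), y = (p : ℚ) ^ v * y' ∧ padicNorm p y' = 1 ∧
      p ^ v.natAbs * ht y' ≤ ht y := by
  have hn0 : y.num.natAbs ≠ 0 := by
    rw [Ne, Int.natAbs_eq_zero]; exact Rat.num_ne_zero.mpr hy
  obtain ⟨a, m, hm, hma⟩ := Nat.exists_eq_pow_mul_and_not_dvd hn0 p hp.out.ne_one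
  obtain ⟨b, n, hn, hnb⟩ := Nat.exists_eq_pow_mul_and_not_dvd y.den_pos.ne' p hp.out.ne_one
  have hm0 : m ≠ 0 := by rintro rfl; exact hm (dvd_zero _)
  have hnn0 : n ≠ 0 := by rintro rfl; exact hn (dvd_zero _)
  have hp0 : (p : ℚ) ≠ 0 := by exact_mod_cast hp.out.ne_zero
  obtain ⟨σ, hσ⟩ : ∃ σ : ℤ, σ = y.num.sign := ⟨_, rfl⟩
  have hnum : (y.num : ℚ) = (σ : ℚ) * ((p : ℚ) ^ a * m) := by
    have h1 : y.num = σ * (y.num.natAbs : ℤ) := by rw [hσ]; exact (Int.sign_mul_natAbs _).symm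
    have h2 : (y.num : ℚ) = (σ : ℚ) * ((y.num.natAbs : ℕ) : ℚ) := by
      have h1' : (y.num : ℚ) = ((σ * (y.num.natAbs : ℤ) : ℤ) : ℚ) := by rw [← h1]
      rw [h1', Int.cast_mul, Int.cast_natCast]
    rw [h2, hma]
    push_cast
    ring
  have hσ1 : σ = 1 ∨ σ = -1 := by
    rw [hσ]
    rcases Int.sign_trichotomy y.num with h | h | h
    · exact Or.inl h
    · exfalso
      rw [Int.sign_eq_zero_iff_zero] at h
      exact hn0 (by rw [h]; rfl)
    · exact Or.inr h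
  have hden : (y.den : ℚ) = (p : ℚ) ^ b * n := by exact_mod_cast hnb
  obtain ⟨y', hy'⟩ : ∃ y' : ℚ, y' = ((σ * m : ℤ) : ℚ) / ((n : ℤ) : ℚ) := ⟨_, rfl⟩
  have hnq : (n : ℚ) ≠ 0 := by exact_mod_cast hnn0
  have hmq : (m : ℚ) ≠ 0 := by exact_mod_cast hm0
  have hpn : ∀ k : ℕ, k ≠ 0 → ¬ p ∣ k → padicNorm p (k : ℚ) = 1 := by
    intro k hk hk'
    rw [padicNorm.nat_eq_one_iff]
    exact hk'
  refine ⟨(a : ℤ) - b, y', ?_, ?_, ?_⟩
  · have h1 : y = (y.num : ℚ) / y.den := (Rat.num_div_den y).symm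
    rw [h1, hnum, hden, hy', zpow_sub₀ hp0, zpow_natCast, zpow_natCast]
    push_cast
    field_simp
  · rw [hy']
    push_cast
    rw [padicNorm.div, padicNorm.mul, hpn m hm0 hm, hpn n hnn0 hn]
    rcases hσ1 with h | h
    · rw [h]; simp
    · rw [h]; simp
  · have h1 : y'.num ∣ σ * m := by
      rw [hy', ← Rat.divInt_eq_div]
      exact Rat.num_dvd _ (by exact_mod_cast hnn0)
    have h2 : y'.num.natAbs ∣ m := by
      have := Int.natAbs_dvd_natAbs.mpr h1
      rw [Int.natAbs_mul] at this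
      rcases hσ1 with h | h <;> rw [h] at this <;> simpa using this
    have h3 : y'.num.natAbs ≤ m := Nat.le_of_dvd (Nat.pos_of_ne_zero hm0) h2
    have h4 : (y'.den : ℤ) ∣ (n : ℤ) := by
      rw [hy', ← Rat.divInt_eq_div]
      exact Rat.den_dvd _ _
    have h5 : y'.den ≤ n := Nat.le_of_dvd (Nat.pos_of_ne_zero hnn0) (by exact_mod_cast h4)
    have h6 : ((a : ℤ) - b).natAbs ≤ a + b := by omega
    unfold ht
    calc p ^ ((a : ℤ) - b).natAbs * (y'.num.natAbs * y'.den) ≤ p ^ (a + b) * (m * n) :=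
          Nat.mul_le_mul (Nat.pow_le_pow_right hp.out.pos h6) (Nat.mul_le_mul h3 h5)
      _ = y.num.natAbs * y.den := by rw [hma, hnb, pow_add]; ring

/-- geometric weights over a finite set of integers -/
theorem wsum (x : ℝ) (hx0 : 0 ≤ x) (hx1 : x < 1) (W : Finset ℤ) :
    ∑ w ∈ W, x ^ w.natAbs ≤ 2 / (1 - x) := by
  have h1 : ∑ w ∈ W, x ^ w.natAbs
      = ∑ k ∈ W.image Int.natAbs, ∑ w ∈ W.filter (fun w => w.natAbs = k), x ^ w.natAbs :=
    (Finset.sum_fiberwise_of_maps_to (fun w hw => Finset.mem_image_of_mem _ hw) _).symm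
  rw [h1]
  have h2 : ∀ k ∈ W.image Int.natAbs, ∑ w ∈ W.filter (fun w => w.natAbs = k), x ^ w.natAbs
      ≤ 2 * x ^ k := by
    intro k _
    have e1 : ∑ w ∈ W.filter (fun w => w.natAbs = k), x ^ w.natAbs
        = ∑ w ∈ W.filter (fun w => w.natAbs = k), x ^ k :=
      Finset.sum_congr rfl (fun w hw => by rw [(Finset.mem_filter.mp hw).2])
    rw [e1, Finset.sum_const, nsmul_eq_mul]
    apply mul_le_mul_of_nonneg_right _ (pow_nonneg hx0 k)
    have : (W.filter (fun w => w.natAbs = k)) ⊆ {(k : ℤ), -(k : ℤ)} := by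
      intro w hw
      have := (Finset.mem_filter.mp hw).2
      rw [Finset.mem_insert, Finset.mem_singleton]
      omega
    have h3 := (Finset.card_le_card this).trans Finset.card_le_two
    exact_mod_cast h3
  refine (Finset.sum_le_sum h2).trans ?_
  obtain ⟨n, hn⟩ : ∃ n : ℕ, W.image Int.natAbs ⊆ Finset.range n := by
    refine ⟨(W.image Int.natAbs).sup id + 1, fun k hk => ?_⟩
    rw [Finset.mem_range]
    have : id k ≤ (W.image Int.natAbs).sup id := Finset.le_sup hk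
    simp only [id] at this
    exact Nat.lt_succ_of_le this
  have h3 : ∑ k ∈ W.image Int.natAbs, 2 * x ^ k ≤ ∑ k ∈ Finset.range n, 2 * x ^ k :=
    Finset.sum_le_sum_of_subset_of_nonneg hn (fun k _ _ => by positivity)
  refine h3.trans ?_
  rw [← Finset.mul_sum, div_eq_mul_inv]
  apply mul_le_mul_of_nonneg_left _ (by norm_num)
  have h4 := Summable.sum_le_tsum (Finset.range n) (fun k _ => pow_nonneg hx0 k)
    (summable_geometric_of_lt_one hx0 hx1)
  rwa [tsum_geometric_of_lt_one hx0 hx1] at h4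

theorem rank_drop {ρ : ℕ} (M : Submodule ℤ (Fin ρ → ℤ)) (f : (Fin ρ → ℤ) →ₗ[ℤ] ℤ)
    (e0 : Fin ρ → ℤ) (he0 : e0 ∈ M) (hf : f e0 ≠ 0) :
    ∃ M' : Submodule ℤ (Fin ρ → ℤ), (∀ e, e ∈ M → f e = 0 → e ∈ M') ∧ (∀ e ∈ M', e ∈ M) ∧
      Module.finrank ℤ M' + 1 ≤ Module.finrank ℤ M := by
  obtain ⟨F, hF⟩ : ∃ F : M →ₗ[ℤ] ℤ, F = f.comp M.subtype := ⟨_, rfl⟩
  refine ⟨(LinearMap.ker F).map M.subtype, ?_, ?_, ?_⟩
  · intro e he hfe
    rw [Submodule.mem_map]
    refine ⟨⟨e, he⟩, ?_, rfl⟩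
    rw [LinearMap.mem_ker, hF]
    exact hfe
  · intro e he
    rw [Submodule.mem_map] at he
    obtain ⟨x, _, rfl⟩ := he
    exact x.2
  · rw [Submodule.finrank_map_subtype_eq]
    have h1 : Module.finrank ℤ (LinearMap.range F) + Module.finrank ℤ (LinearMap.ker F)
        = Module.finrank ℤ M := by
      rw [← (LinearMap.quotKerEquivRange F).finrank_eq]
      exact Submodule.finrank_quotient_add_finrank (LinearMap.ker F)
    have h2 : 1 ≤ Module.finrank ℤ (LinearMap.range F) := by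
      rw [Submodule.one_le_finrank_iff]
      intro h
      rw [LinearMap.range_eq_bot] at h
      apply hf
      have := LinearMap.congr_fun h ⟨e0, he0⟩
      rw [hF] at this
      exact this
    omega

/-- A rational number all of whose valuations vanish is `±1`. -/
theorem exists_prime (γ : ℚ) (h0 : γ ≠ 0) (h1 : γ ≠ 1) (h2 : γ ≠ -1) :
    ∃ p : ℕ, p.Prime ∧ padicValRat p γ ≠ 0 := by
  by_contra hcon
  push Not at hcon
  have hn0 : γ.num ≠ 0 := Rat.num_ne_zero.mpr h0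
  have hnum : γ.num.natAbs = 1 := by
    by_contra hne
    obtain ⟨p, hp, hpd⟩ := Nat.exists_prime_and_dvd hne
    have hv := hcon p hp
    have : Fact p.Prime := ⟨hp⟩
    have hnd : ¬ p ∣ γ.den := by
      intro hd
      have := Nat.dvd_gcd hpd hd
      rw [γ.reduced] at this
      exact hp.one_lt.ne' (Nat.dvd_one.mp this)
    rw [padicValRat_def, padicValNat.eq_zero_of_not_dvd hnd] at hv
    have h3 : 1 ≤ padicValNat p γ.num.natAbs :=
      one_le_padicValNat_of_dvd (Int.natAbs_ne_zero.mpr hn0) hpd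
    unfold padicValInt at hv
    omega
  have hden : γ.den = 1 := by
    by_contra hne
    obtain ⟨p, hp, hpd⟩ := Nat.exists_prime_and_dvd hne
    have hv := hcon p hp
    have : Fact p.Prime := ⟨hp⟩
    have h3 : 1 ≤ padicValNat p γ.den := one_le_padicValNat_of_dvd γ.den_pos.ne' hpd
    rw [padicValRat_def] at hv
    unfold padicValInt at hv
    rw [hnum, padicValNat_one_right] at hv
    omega
  have h5 : γ = (γ.num : ℚ) := by
    have := Rat.num_div_den γ
    rw [hden] at this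
    simpa using this.symm
  rcases Int.natAbs_eq γ.num with h | h
  · rw [hnum] at h
    apply h1
    rw [h5, h]
    simp
  · rw [hnum] at h
    apply h2
    rw [h5, h]
    simp

/-- the element of the group with exponents `e` -/
def gp {ρ : ℕ} (g : Fin ρ → ℚ) (e : Fin ρ → ℤ) : ℚ := ∏ i, g i ^ e i

theorem gp_ne {ρ : ℕ} (g : Fin ρ → ℚ) (hg : ∀ i, g i ≠ 0) (e : Fin ρ → ℤ) : gp g e ≠ 0 :=
  Finset.prod_ne_zero_iff.mpr (fun i _ => zpow_ne_zero _ (hg i))

theorem gp_add {ρ : ℕ} (g : Fin ρ → ℚ) (hg : ∀ i, g i ≠ 0) (e e' : Fin ρ → ℤ) :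
    gp g (e + e') = gp g e * gp g e' := by
  unfold gp
  rw [← Finset.prod_mul_distrib]
  exact Finset.prod_congr rfl (fun i _ => zpow_add₀ (hg i) _ _)

/-- valuation of group elements as a linear form -/
def lin {ρ : ℕ} (p : ℕ) (g : Fin ρ → ℚ) : (Fin ρ → ℤ) →ₗ[ℤ] ℤ :=
  ∑ i, (padicValRat p (g i)) • (LinearMap.proj i : (Fin ρ → ℤ) →ₗ[ℤ] ℤ)

theorem lin_apply {ρ : ℕ} (p : ℕ) (g : Fin ρ → ℚ) (e : Fin ρ → ℤ) :
    lin p g e = ∑ i, padicValRat p (g i) * e i := by
  unfold lin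
  rw [LinearMap.sum_apply]
  exact Finset.sum_congr rfl (fun i _ => by simp)

theorem val_gp {ρ : ℕ} (p : ℕ) [hp : Fact p.Prime] (g : Fin ρ → ℚ) (hg : ∀ i, g i ≠ 0)
    (e : Fin ρ → ℤ) : padicValRat p (gp g e) = lin p g e := by
  rw [lin_apply]
  unfold gp
  have : ∀ s : Finset (Fin ρ), padicValRat p (∏ i ∈ s, g i ^ e i)
      = ∑ i ∈ s, padicValRat p (g i) * e i := by
    intro s
    induction s using Finset.induction_on with
    | empty => simp
    | insert i s hi ih =>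
      rw [Finset.prod_insert hi, Finset.sum_insert hi, padicValRat.mul (zpow_ne_zero _ (hg i))
        (Finset.prod_ne_zero_iff.mpr (fun j _ => zpow_ne_zero _ (hg j))), ih, padicValRat.zpow]
      ring
  exact this Finset.univ

end H41SQ
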