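import Pool.Agent.H41.SQ.Dec

set_option autoImplicit false

open Finset

namespace H41SQ

/-- `A` consists of squares of `r` times an `S`-unit times a rational number of height `≤ H`. -/
def Adm (H : ℕ) (S : Finset ℕ) (A : Finset ℚ) : Prop :=
  ∃ r : ℚ, r ≠ 0 ∧ ∀ a ∈ A, ∃ (e : ℕ → ℤ) (y : ℚ), |y.num| ≤ (H : ℤ) ∧ y.den ≤ H ∧
    a = (r * (∏ p ∈ S, (p : ℚ) ^ (e p)) * y) ^ 2

theorem prod_unit (p : ℕ) [hp : Fact p.Prime] (S : Finset ℕ) (hS : ∀ q ∈ S, q.Prime) (hpS : p ∉ S)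
    (e : ℕ → ℤ) :
    (∏ q ∈ S, (q : ℚ) ^ (e q)) ≠ 0 ∧ padicNorm p (∏ q ∈ S, (q : ℚ) ^ (e q)) = 1 := by
  induction S using Finset.induction_on with
  | empty => simp
  | insert q S hq ih =>
    have hqp : q.Prime := hS q (Finset.mem_insert_self _ _)
    obtain ⟨i1, i2⟩ := ih (fun q' hq' => hS q' (Finset.mem_insert_of_mem hq'))
      (fun h => hpS (Finset.mem_insert_of_mem h))
    have hne : p ≠ q := by
      rintro rfl
      exact hpS (Finset.mem_insert_self _ _)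
    have hq0 : (q : ℚ) ≠ 0 := by exact_mod_cast hqp.ne_zero
    have : Fact q.Prime := ⟨hqp⟩
    have h1 : padicNorm p (q : ℚ) = 1 := padicNorm.padicNorm_of_prime_of_ne hne
    rw [Finset.prod_insert hq]
    refine ⟨mul_ne_zero (zpow_ne_zero _ hq0) i1, ?_⟩
    rw [padicNorm.mul, i2, mul_one]
    rw [padicNorm.eq_zpow_of_nonzero hq0] at h1
    rw [padicNorm.eq_zpow_of_nonzero (zpow_ne_zero _ hq0), padicValRat.zpow]
    have hp1 : (1 : ℚ) < p := by exact_mod_cast hp.out.one_lt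
    have h2 : -padicValRat p (q : ℚ) = 0 := by
      have := zpow_right_injective₀ (by linarith : (0 : ℚ) < p) hp1.ne' (h1.trans (zpow_zero _).symm)
      exact this
    have h3 : -(e q * padicValRat p (q : ℚ)) = 0 := by
      have : padicValRat p (q : ℚ) = 0 := by linarith
      rw [this]; ring
    rw [h3, zpow_zero]

theorem strip (p : ℕ) [hp : Fact p.Prime] (y : ℚ) (hy : y ≠ 0) :
    ∃ (v : ℤ) (y' : ℚ), y = (p : ℚ) ^ v * y' ∧ padicNorm p y' = 1 ∧ |y'.num| ≤ |y.num| ∧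
      y'.den ≤ y.den := by
  have hn0 : y.num.natAbs ≠ 0 := by
    rw [Ne, Int.natAbs_eq_zero]; exact Rat.num_ne_zero.mpr hy
  obtain ⟨a, m, hm, hma⟩ := Nat.exists_eq_pow_mul_and_not_dvd hn0 p hp.out.ne_one
  obtain ⟨b, n, hn, hnb⟩ := Nat.exists_eq_pow_mul_and_not_dvd y.den_pos.ne' p hp.out.ne_one
  have hm0 : m ≠ 0 := by rintro rfl; exact hm (dvd_zero _)
  have hnn0 : n ≠ 0 := by rintro rfl; exact hn (dvd_zero _)
  have hp0 : (p : ℚ) ≠ 0 := by exact_mod_cast hp.out.ne_zero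
  obtain ⟨σ, hσ⟩ : ∃ σ : ℤ, σ = y.num.sign := ⟨_, rfl⟩
  have hnum : (y.num : ℚ) = (σ : ℚ) * ((p : ℚ) ^ a * m) := by
    have h1 : y.num = σ * (y.num.natAbs : ℤ) := by rw [hσ]; exact (Int.sign_mul_natAbs _).symm
    have h2 : (y.num : ℚ) = (σ : ℚ) * ((y.num.natAbs : ℕ) : ℚ) := by
      have h1' : (y.num : ℚ) = ((σ * (y.num.natAbs : ℤ) : ℤ) : ℚ) := by rw [← h1]
      rw [h1', Int.cast_mul, Int.cast_natCast]
    rw [h2, hma]
    push_cast
    ring
  have hσ1 : σ = 1 ∨ σ = -1 := by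
    rw [hσ]
    rcases Int.sign_trichotomy y.num with h | h | h
    · exact Or.inl h
    · exfalso
      rw [Int.sign_eq_zero_iff_zero] at h
      exact hn0 (by rw [h]; rfl)
    · exact Or.inr h
  have hden : (y.den : ℚ) = (p : ℚ) ^ b * n := by exact_mod_cast hnb
  obtain ⟨y', hy'⟩ : ∃ y' : ℚ, y' = ((σ * m : ℤ) : ℚ) / ((n : ℤ) : ℚ) := ⟨_, rfl⟩
  have hnq : (n : ℚ) ≠ 0 := by exact_mod_cast hnn0
  have hmq : (m : ℚ) ≠ 0 := by exact_mod_cast hm0
  have hpn : ∀ k : ℕ, k ≠ 0 → ¬ p ∣ k → padicNorm p (k : ℚ) = 1 := by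
    intro k hk hk'
    rw [padicNorm.nat_eq_one_iff]
    exact hk'
  refine ⟨(a : ℤ) - b, y', ?_, ?_, ?_, ?_⟩
  · have h1 : y = (y.num : ℚ) / y.den := (Rat.num_div_den y).symm
    rw [h1, hnum, hden, hy', zpow_sub₀ hp0, zpow_natCast, zpow_natCast]
    push_cast
    field_simp
  · rw [hy']
    push_cast
    rw [padicNorm.div, padicNorm.mul, hpn m hm0 hm, hpn n hnn0 hn]
    rcases hσ1 with h | h
    · rw [h]; simp
    · rw [h]; simp
  · have h1 : y'.num ∣ σ * m := by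
      rw [hy', ← Rat.divInt_eq_div]
      exact Rat.num_dvd _ (by exact_mod_cast hnn0)
    have h2 : y'.num.natAbs ∣ m := by
      have := Int.natAbs_dvd_natAbs.mpr h1
      rw [Int.natAbs_mul] at this
      rcases hσ1 with h | h <;> rw [h] at this <;> simpa using this
    have h3 : y'.num.natAbs ≤ y.num.natAbs := by
      refine (Nat.le_of_dvd (Nat.pos_of_ne_zero hm0) h2).trans ?_
      rw [hma]
      exact Nat.le_mul_of_pos_left _ (pow_pos hp.out.pos _)
    have h4 : ((y'.num.natAbs : ℕ) : ℤ) ≤ ((y.num.natAbs : ℕ) : ℤ) := by exact_mod_cast h3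
    rwa [Int.natCast_natAbs, Int.natCast_natAbs] at h4
  · have h1 : (y'.den : ℤ) ∣ (n : ℤ) := by
      rw [hy', ← Rat.divInt_eq_div]
      exact Rat.den_dvd _ _
    have h2 : y'.den ≤ n := Nat.le_of_dvd (Nat.pos_of_ne_zero hnn0) (by exact_mod_cast h1)
    refine h2.trans ?_
    rw [hnb]
    exact Nat.le_mul_of_pos_left _ (pow_pos hp.out.pos _)

theorem adm_class {H : ℕ} (hH : 1 ≤ H) (p : ℕ) [hp : Fact p.Prime] (S : Finset ℕ)
    (hS : ∀ q ∈ S, q.Prime) (hpS : p ∉ S) (A : Finset ℚ) (hA : Adm H (insert p S) A) (j : ℚ) :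
    Adm H S (A.filter (fun a => padicNorm p a = j)) := by
  obtain ⟨r, hr, hA⟩ := hA
  have hp0 : (p : ℚ) ≠ 0 := by exact_mod_cast hp.out.ne_zero
  have hp1 : (1 : ℚ) < p := by exact_mod_cast hp.out.one_lt
  by_cases hj : j = 0
  · refine ⟨1, one_ne_zero, ?_⟩
    intro a ha
    rw [Finset.mem_filter, hj] at ha
    have h0 : a = 0 := padicNorm.zero_of_padicNorm_eq_zero ha.2
    refine ⟨fun _ => 0, 0, ?_, ?_, ?_⟩
    · simp
    · simpa using hH
    · rw [h0]; simp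
  -- decomposition of one element
  have hdec : ∀ a ∈ A.filter (fun a => padicNorm p a = j), ∃ (e : ℕ → ℤ) (y : ℚ) (k : ℤ),
      |y.num| ≤ (H : ℤ) ∧ y.den ≤ H ∧
      a = (r * (p : ℚ) ^ k * (∏ q ∈ S, (q : ℚ) ^ (e q)) * y) ^ 2 ∧
      j = (padicNorm p r * (p : ℚ) ^ (-k)) ^ 2 := by
    intro a ha
    rw [Finset.mem_filter] at ha
    obtain ⟨ha, haj⟩ := ha
    obtain ⟨e, y, h1, h2, h3⟩ := hA a ha
    have ha0 : a ≠ 0 := by
      rintro rfl
      apply hj
      rw [← haj]; simp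
    have hy0 : y ≠ 0 := by
      rintro rfl
      apply ha0
      rw [h3]; simp
    obtain ⟨v, y', g1, g2, g3, g4⟩ := strip p y hy0
    rw [Finset.prod_insert hpS] at h3
    obtain ⟨u1, u2⟩ := prod_unit p S hS hpS e
    refine ⟨e, y', e p + v, g3.trans h1, g4.trans h2, ?_, ?_⟩
    · rw [h3, g1, zpow_add₀ hp0]
      ring
    · rw [← haj]
      have h5 : a = (r * (p : ℚ) ^ (e p + v) * (∏ q ∈ S, (q : ℚ) ^ (e q)) * y') ^ 2 := by
        rw [h3, g1, zpow_add₀ hp0]
        ring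
      have h6 : padicNorm p ((p : ℚ) ^ (e p + v)) = (p : ℚ) ^ (-(e p + v)) := by
        rw [padicNorm.eq_zpow_of_nonzero (zpow_ne_zero _ hp0), padicValRat.zpow,
          padicValRat.self hp.out.one_lt, mul_one]
      rw [h5, pow_two, padicNorm.mul, padicNorm.mul, padicNorm.mul, padicNorm.mul, u2, g2, h6]
      ring
  rcases (A.filter (fun a => padicNorm p a = j)).eq_empty_or_nonempty with h0 | ⟨a0, ha0⟩
  · refine ⟨1, one_ne_zero, ?_⟩
    rw [h0]
    intro a ha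
    exact absurd ha (Finset.notMem_empty a)
  obtain ⟨e0, y0, k0, -, -, -, hk0⟩ := hdec a0 ha0
  refine ⟨r * (p : ℚ) ^ k0, mul_ne_zero hr (zpow_ne_zero _ hp0), ?_⟩
  intro a ha
  obtain ⟨e, y, k, h1, h2, h3, hk⟩ := hdec a ha
  have hrn : 0 < padicNorm p r := lt_of_le_of_ne (padicNorm.nonneg r) (by
    intro h
    exact hr (padicNorm.zero_of_padicNorm_eq_zero h.symm))
  have hkk : k = k0 := by
    rw [hk0] at hk
    have e1 : padicNorm p r * (p : ℚ) ^ (-k0) = padicNorm p r * (p : ℚ) ^ (-k) := by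
      have a1 : 0 ≤ padicNorm p r * (p : ℚ) ^ (-k0) := by positivity
      have a2 : 0 ≤ padicNorm p r * (p : ℚ) ^ (-k) := by positivity
      exact (pow_left_inj₀ a1 a2 two_ne_zero).mp hk
    have e2 := mul_left_cancel₀ hrn.ne' e1
    have e3 := zpow_right_injective₀ (by linarith : (0 : ℚ) < p) hp1.ne' e2
    omega
  refine ⟨e, y, h1, h2, ?_⟩
  rw [h3, hkk]

theorem adm_bound {H : ℕ} (hH : 1 ≤ H) (B : ℝ)
    (hB : ∀ A : Finset ℚ, Adm H ∅ A → Real.sqrt (Ep A) ≤ B * A.card) (S : Finset ℕ)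
    (hS : ∀ q ∈ S, q.Prime) :
    ∀ A : Finset ℚ, Adm H S A → Real.sqrt (Ep A) ≤ 6 ^ S.card * B * A.card := by
  induction S using Finset.induction_on with
  | empty =>
    intro A hA
    simpa using hB A hA
  | insert p S hpS ih =>
    intro A hA
    have hp : p.Prime := hS p (Finset.mem_insert_self _ _)
    have : Fact p.Prime := ⟨hp⟩
    have hS' : ∀ q ∈ S, q.Prime := fun q hq => hS q (Finset.mem_insert_of_mem hq)
    have ih' := ih hS'
    have h1 := decouple A (padicNorm p) (fun a _ b _ c _ d _ h => norm_key p a b c d h)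
    rw [Finset.card_insert_of_notMem hpS]
    have h2 : ∑ j ∈ A.image (padicNorm p), Real.sqrt (Ep (A.filter (fun a => padicNorm p a = j)))
        ≤ ∑ j ∈ A.image (padicNorm p), 6 ^ S.card * B *
          ((A.filter (fun a => padicNorm p a = j)).card : ℝ) :=
      Finset.sum_le_sum (fun j _ => ih' _ (adm_class hH p S hS' hpS A hA j))
    have h3 : ∑ j ∈ A.image (padicNorm p), ((A.filter (fun a => padicNorm p a = j)).card : ℝ)
        = A.card := by
      have := Finset.card_eq_sum_card_image (padicNorm p) A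
      rw [this]
      push_cast
      rfl
    rw [← Finset.mul_sum, h3] at h2
    calc Real.sqrt (Ep A) ≤ 6 * ∑ j ∈ A.image (padicNorm p),
          Real.sqrt (Ep (A.filter (fun a => padicNorm p a = j))) := h1
      _ ≤ 6 * (6 ^ S.card * B * A.card) := by linarith
      _ = 6 ^ (S.card + 1) * B * A.card := by ring

end H41SQ
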