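import Pool.Agent.H41.SQ.Ind

set_option autoImplicit false

open Finset

namespace H41SQ

/-- Combination of classes, exponent `θ ≥ 1`. -/
theorem combine2 {ι : Type*} [DecidableEq ι] (A : Finset ℚ) (κ : ℚ → ι) (D θ : ℝ)
    (hD : 0 ≤ D) (hθ : 1 ≤ θ)
    (h : ∀ j ∈ A.image κ, Real.sqrt (Ep (A.filter (fun a => κ a = j)))
      ≤ D * ((A.filter (fun a => κ a = j)).card : ℝ) ^ θ) :
    Real.sqrt (Ep A) ≤ ((A.image κ).card : ℝ) * (D * (A.card : ℝ) ^ θ) := by
  refine (qtri A κ).trans ?_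
  have h1 : ∑ j ∈ A.image κ, qq (A.filter (fun a => κ a = j))
      ≤ ∑ j ∈ A.image κ, Real.sqrt (D * ((A.filter (fun a => κ a = j)).card : ℝ) ^ θ) :=
    Finset.sum_le_sum (fun j hj => Real.sqrt_le_sqrt (h j hj))
  have h3 : (∑ j ∈ A.image κ, qq (A.filter (fun a => κ a = j))) ^ 2
      ≤ (∑ j ∈ A.image κ, Real.sqrt (D * ((A.filter (fun a => κ a = j)).card : ℝ) ^ θ)) ^ 2 :=
    pow_le_pow_left₀ (Finset.sum_nonneg (fun _ _ => qq_nonneg _)) h1 2
  refine h3.trans (sq_sum_le_card_mul_sum_sq.trans ?_)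
  apply mul_le_mul_of_nonneg_left _ (Nat.cast_nonneg _)
  have e3 : ∑ j ∈ A.image κ, Real.sqrt (D * ((A.filter (fun a => κ a = j)).card : ℝ) ^ θ) ^ 2
      = ∑ j ∈ A.image κ, D * ((A.filter (fun a => κ a = j)).card : ℝ) ^ θ :=
    Finset.sum_congr rfl (fun j _ => Real.sq_sqrt (by positivity))
  rw [e3, ← Finset.mul_sum]
  apply mul_le_mul_of_nonneg_left _ hD
  have e4 : (A.card : ℝ) = ∑ j ∈ A.image κ, ((A.filter (fun a => κ a = j)).card : ℝ) := by
    have := Finset.card_eq_sum_card_image κ A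
    rw [this]
    push_cast
    rfl
  have e5 : ∀ j ∈ A.image κ, ((A.filter (fun a => κ a = j)).card : ℝ) ^ θ
      ≤ ((A.filter (fun a => κ a = j)).card : ℝ) * (A.card : ℝ) ^ (θ - 1) := by
    intro j hj
    obtain ⟨a, ha, rfl⟩ := Finset.mem_image.mp hj
    have h1 : 1 ≤ (A.filter (fun b => κ b = κ a)).card :=
      Finset.card_pos.mpr ⟨a, Finset.mem_filter.mpr ⟨ha, rfl⟩⟩
    have h1' : (1 : ℝ) ≤ ((A.filter (fun b => κ b = κ a)).card : ℝ) := by exact_mod_cast h1
    have h2 : ((A.filter (fun b => κ b = κ a)).card : ℝ) ≤ A.card := by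
      exact_mod_cast Finset.card_filter_le _ _
    have h3 : ((A.filter (fun b => κ b = κ a)).card : ℝ) ^ θ
        = ((A.filter (fun b => κ b = κ a)).card : ℝ)
          * ((A.filter (fun b => κ b = κ a)).card : ℝ) ^ (θ - 1) := by
      rw [← Real.rpow_one_add' (by linarith) (by linarith)]
      congr 1
      ring
    rw [h3]
    apply mul_le_mul_of_nonneg_left _ (by linarith)
    exact Real.rpow_le_rpow (by linarith) h2 (by linarith)
  rcases A.eq_empty_or_nonempty with h0 | hne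
  · rw [h0]; simp
    rw [Real.zero_rpow (by linarith)]
  have hn : (1 : ℝ) ≤ A.card := by exact_mod_cast Finset.card_pos.mpr hne
  calc ∑ j ∈ A.image κ, ((A.filter (fun a => κ a = j)).card : ℝ) ^ θ
      ≤ ∑ j ∈ A.image κ, ((A.filter (fun a => κ a = j)).card : ℝ) * (A.card : ℝ) ^ (θ - 1) :=
        Finset.sum_le_sum e5
    _ = (A.card : ℝ) * (A.card : ℝ) ^ (θ - 1) := by rw [← Finset.sum_mul, ← e4]
    _ = (A.card : ℝ) ^ θ := by
        rw [← Real.rpow_one_add' (by linarith) (by linarith)]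
        congr 1
        ring

/-- One class of the decoupling at `p`, exponent `θ ≥ 1`. -/
theorem one_class2 {ρ : ℕ} (g : Fin ρ → ℚ) (hg : ∀ i, g i ≠ 0) (θ D : ℝ) (hθ : 1 ≤ θ) (hD : 0 ≤ D)
    (N : ℕ) (hN : 1 ≤ N)
    (p : ℕ) [hp : Fact p.Prime] (M M' : Submodule ℤ (Fin ρ → ℤ))
    (hM1 : ∀ e, e ∈ M → lin p g e = 0 → e ∈ M')
    (hind : ∀ (r : ℚ) (A : Finset ℚ), r ≠ 0 →
      (∀ a ∈ A, ∃ e ∈ M', ∃ y : ℚ, ht y ≤ N ∧ a = (r * gp g e * y) ^ 2) →
      Real.sqrt (Ep A) ≤ D * (A.card : ℝ) ^ θ)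
    (r : ℚ) (A : Finset ℚ) (hr : r ≠ 0)
    (hA : ∀ a ∈ A, ∃ e ∈ M, ∃ y : ℚ, ht y ≤ N ∧ a = (r * gp g e * y) ^ 2) (j : ℚ) :
    Real.sqrt (Ep (A.filter (fun a => padicNorm p a = j)))
      ≤ (2 * (Nat.log 2 N : ℝ) + 1) *
        (D * ((A.filter (fun a => padicNorm p a = j)).card : ℝ) ^ θ) := by
  have hp0 : (p : ℚ) ≠ 0 := by exact_mod_cast hp.out.ne_zero
  have hp1 : (1 : ℚ) < p := by exact_mod_cast hp.out.one_lt
  obtain ⟨A', hA'⟩ : ∃ A' : Finset ℚ, A' = A.filter (fun a => padicNorm p a = j) := ⟨_, rfl⟩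
  rw [← hA']
  have hl0 : (0 : ℝ) ≤ Nat.log 2 N := Nat.cast_nonneg _
  by_cases hj : j = 0
  · have h1 := hind 1 A' one_ne_zero (by
      intro a ha
      rw [hA', Finset.mem_filter, hj] at ha
      have h0 : a = 0 := padicNorm.zero_of_padicNorm_eq_zero ha.2
      refine ⟨0, M'.zero_mem, 0, ?_, ?_⟩
      · simp [ht]
      · rw [h0]; simp)
    refine h1.trans ?_
    have h3 : 0 ≤ D * (A'.card : ℝ) ^ θ := mul_nonneg hD (Real.rpow_nonneg (Nat.cast_nonneg _) _)
    nlinarith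
  have hdec : ∀ a ∈ A', ∃ (e : Fin ρ → ℤ) (y : ℚ) (v : ℤ), e ∈ M ∧ y ≠ 0 ∧
      p ^ v.natAbs * ht y ≤ N ∧ a = (r * gp g e * (p : ℚ) ^ v * y) ^ 2 ∧
      j = (padicNorm p r * (p : ℚ) ^ (-(lin p g e)) * (p : ℚ) ^ (-v)) ^ 2 := by
    intro a ha
    rw [hA', Finset.mem_filter] at ha
    obtain ⟨ha, haj⟩ := ha
    obtain ⟨e, he, y, h2, h3⟩ := hA a ha
    have ha0 : a ≠ 0 := by
      rintro rfl
      apply hj
      rw [← haj]; simp
    have hy0 : y ≠ 0 := by
      rintro rfl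
      apply ha0
      rw [h3]; simp
    obtain ⟨v, y', g1, g2, g3⟩ := strip2 p y hy0
    have hy'0 : y' ≠ 0 := by
      rintro rfl
      apply hy0
      rw [g1]; simp
    have h5 : a = (r * gp g e * (p : ℚ) ^ v * y') ^ 2 := by
      rw [h3, g1]
      ring
    refine ⟨e, y', v, he, hy'0, le_trans g3 h2, h5, ?_⟩
    have h6 : padicNorm p (gp g e) = (p : ℚ) ^ (-(lin p g e)) := by
      rw [padicNorm.eq_zpow_of_nonzero (gp_ne g hg e), val_gp p g hg e]
    rw [← haj, h5, pow_two, padicNorm.mul, padicNorm.mul, padicNorm.mul, padicNorm.mul, g2, h6,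
      pnorm_pow]
    ring
  choose! e y v he hy0 hht hae hje using hdec
  have hrn : 0 < padicNorm p r := lt_of_le_of_ne (padicNorm.nonneg r) (by
    intro h
    exact hr (padicNorm.zero_of_padicNorm_eq_zero h.symm))
  have hlin : ∀ a ∈ A', ∀ b ∈ A', v a = v b → lin p g (e a) = lin p g (e b) := by
    intro a ha b hb hv
    have e1 := hje a ha
    have e2 := hje b hb
    rw [e1, hv] at e2
    have hv0 : (0 : ℚ) < (p : ℚ) ^ (-(v b)) := zpow_pos (by linarith) _
    have a1 : 0 ≤ padicNorm p r * (p : ℚ) ^ (-(lin p g (e a))) * (p : ℚ) ^ (-(v b)) := by positivity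
    have a2 : 0 ≤ padicNorm p r * (p : ℚ) ^ (-(lin p g (e b))) * (p : ℚ) ^ (-(v b)) := by positivity
    have e3 := (pow_left_inj₀ a1 a2 two_ne_zero).mp e2
    have e4 := mul_right_cancel₀ hv0.ne' e3
    have e5 := mul_left_cancel₀ hrn.ne' e4
    have e6 := zpow_right_injective₀ (by linarith : (0 : ℚ) < p) hp1.ne' e5
    linarith
  have hhy : ∀ a ∈ A', 1 ≤ ht (y a) := by
    intro a ha
    unfold ht
    have : 0 < (y a).num.natAbs := Int.natAbs_pos.mpr (Rat.num_ne_zero.mpr (hy0 a ha))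
    exact Nat.mul_pos this (y a).den_pos
  have hvb : ∀ a ∈ A', (v a).natAbs ≤ Nat.log 2 N := by
    intro a ha
    apply Nat.le_log_of_pow_le (by norm_num)
    calc 2 ^ (v a).natAbs ≤ p ^ (v a).natAbs := Nat.pow_le_pow_left hp.out.two_le _
      _ ≤ p ^ (v a).natAbs * ht (y a) := Nat.le_mul_of_pos_right _ (hhy a ha)
      _ ≤ N := hht a ha
  have hcard : ((A'.image v).card : ℝ) ≤ 2 * (Nat.log 2 N : ℝ) + 1 := by
    have h1 : A'.image v ⊆ Finset.Icc (-(Nat.log 2 N : ℤ)) (Nat.log 2 N : ℤ) := by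
      intro w hw
      obtain ⟨a, ha, rfl⟩ := Finset.mem_image.mp hw
      have := hvb a ha
      rw [Finset.mem_Icc]
      omega
    have h2 := Finset.card_le_card h1
    rw [Int.card_Icc] at h2
    have h3 : (A'.image v).card ≤ 2 * Nat.log 2 N + 1 := by omega
    exact_mod_cast h3
  have hmain := combine2 A' v D θ hD hθ (by
    intro w hw
    obtain ⟨a1, ha1, hva1⟩ := Finset.mem_image.mp hw
    refine hind (r * gp g (e a1) * (p : ℚ) ^ w) (A'.filter (fun a => v a = w))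
      (mul_ne_zero (mul_ne_zero hr (gp_ne g hg _)) (zpow_ne_zero _ hp0)) ?_
    intro a ha
    rw [Finset.mem_filter] at ha
    obtain ⟨ha, hva⟩ := ha
    refine ⟨e a - e a1, ?_, y a, ?_, ?_⟩
    · apply hM1 _ (M.sub_mem (he a ha) (he a1 ha1))
      rw [map_sub, hlin a ha a1 ha1 (by rw [hva, hva1]), sub_self]
    · exact le_trans (Nat.le_mul_of_pos_left _ (pow_pos hp.out.pos _)) (hht a ha)
    · have h2 : gp g (e a) = gp g (e a1) * gp g (e a - e a1) := by
        rw [← gp_add g hg]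
        congr 1
        abel
      have h3 := hae a ha
      rw [hva] at h3
      conv_lhs => rw [h3]
      rw [h2]
      ring)
  refine hmain.trans ?_
  exact mul_le_mul_of_nonneg_right hcard
    (mul_nonneg hD (Real.rpow_nonneg (Nat.cast_nonneg _) _))

/-- Transfer of an energy bound with exponent `θ ≥ 1` to groups of rank `≤ ρ`. -/
theorem transfer_aux {ρ : ℕ} (g : Fin ρ → ℚ) (hg : ∀ i, g i ≠ 0) (θ D : ℝ) (hθ : 1 ≤ θ) (hD : 0 ≤ D)
    (N : ℕ) (hN : 1 ≤ N)
    (hbase : ∀ (r : ℚ) (A : Finset ℚ), r ≠ 0 →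
      (∀ a ∈ A, ∃ y : ℚ, ht y ≤ N ∧ a = (r * y) ^ 2) →
      Real.sqrt (Ep A) ≤ D * (A.card : ℝ) ^ θ) (m : ℕ) :
    ∀ M : Submodule ℤ (Fin ρ → ℤ), Module.finrank ℤ M ≤ m →
    ∀ (r : ℚ) (A : Finset ℚ), r ≠ 0 →
      (∀ a ∈ A, ∃ e ∈ M, ∃ y : ℚ, ht y ≤ N ∧ a = (r * gp g e * y) ^ 2) →
      Real.sqrt (Ep A) ≤ (6 * (2 * (Nat.log 2 N : ℝ) + 1)) ^ m * D * (A.card : ℝ) ^ θ := by
  have hl0 : (0 : ℝ) ≤ Nat.log 2 N := Nat.cast_nonneg _
  obtain ⟨L, hL⟩ : ∃ L : ℝ, L = 2 * (Nat.log 2 N : ℝ) + 1 := ⟨_, rfl⟩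
  have hL1 : 1 ≤ L := by rw [hL]; linarith
  rw [← hL]
  induction m with
  | zero =>
    intro M hM r A hr hA
    rw [pow_zero, one_mul]
    refine hbase r A hr ?_
    intro a ha
    obtain ⟨e, he, y, h1, h2⟩ := hA a ha
    have hbot : M = ⊥ := by
      by_contra hne
      have : 1 ≤ Module.finrank ℤ M := Submodule.one_le_finrank_iff.mpr hne
      omega
    rw [hbot, Submodule.mem_bot] at he
    refine ⟨y, h1, ?_⟩
    rw [h2, he]
    unfold gp
    simp
  | succ m ih =>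
    intro M hM r A hr hA
    have hDA : 0 ≤ D * (A.card : ℝ) ^ θ := mul_nonneg hD (Real.rpow_nonneg (Nat.cast_nonneg _) _)
    by_cases hall : ∀ e ∈ M, gp g e = 1 ∨ gp g e = -1
    · have h1 := hbase r A hr (by
        intro a ha
        obtain ⟨e, he, y, h1, h2⟩ := hA a ha
        refine ⟨y, h1, ?_⟩
        rw [h2]
        rcases hall e he with h | h
        · rw [h]; ring
        · rw [h]; ring)
      refine h1.trans ?_
      have h2 : (1 : ℝ) ≤ (6 * L) ^ (m + 1) := one_le_pow₀ (by linarith)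
      nlinarith
    · push Not at hall
      obtain ⟨e0, he0, hne1, hne2⟩ := hall
      obtain ⟨p, hpp, hpv⟩ := exists_prime (gp g e0) (gp_ne g hg e0) hne1 hne2
      have : Fact p.Prime := ⟨hpp⟩
      rw [val_gp p g hg] at hpv
      obtain ⟨M', hM1, hM2, hM3⟩ := rank_drop M (lin p g) e0 he0 hpv
      have hM' : Module.finrank ℤ M' ≤ m := by omega
      have hDm : 0 ≤ (6 * L) ^ m * D := mul_nonneg (by positivity) hD
      have h1 := decouple A (padicNorm p) (fun a _ b _ c _ d _ h => norm_key p a b c d h)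
      have h2 : ∀ j ∈ A.image (padicNorm p), Real.sqrt (Ep (A.filter (fun a => padicNorm p a = j)))
          ≤ L * ((6 * L) ^ m * D * ((A.filter (fun a => padicNorm p a = j)).card : ℝ) ^ θ) := by
        intro j _
        have := one_class2 g hg θ ((6 * L) ^ m * D) hθ hDm N hN p M M' hM1
          (fun r A hr hA => ih M' hM' r A hr hA) r A hr hA j
        rw [← hL] at this
        exact this
      have h3 : ∑ j ∈ A.image (padicNorm p), ((A.filter (fun a => padicNorm p a = j)).card : ℝ) ^ θ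
          ≤ (A.card : ℝ) ^ θ := by
        have e4 : (A.card : ℝ)
            = ∑ j ∈ A.image (padicNorm p), ((A.filter (fun a => padicNorm p a = j)).card : ℝ) := by
          have := Finset.card_eq_sum_card_image (padicNorm p) A
          rw [this]
          push_cast
          rfl
        rcases A.eq_empty_or_nonempty with h0 | hne
        · rw [h0]; simp
          rw [Real.zero_rpow (by linarith)]
        have hn : (1 : ℝ) ≤ A.card := by exact_mod_cast Finset.card_pos.mpr hne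
        calc ∑ j ∈ A.image (padicNorm p), ((A.filter (fun a => padicNorm p a = j)).card : ℝ) ^ θ
            ≤ ∑ j ∈ A.image (padicNorm p), ((A.filter (fun a => padicNorm p a = j)).card : ℝ)
              * (A.card : ℝ) ^ (θ - 1) := by
              refine Finset.sum_le_sum (fun j hj => ?_)
              obtain ⟨a, ha, rfl⟩ := Finset.mem_image.mp hj
              have h1 : 1 ≤ (A.filter (fun b => padicNorm p b = padicNorm p a)).card :=
                Finset.card_pos.mpr ⟨a, Finset.mem_filter.mpr ⟨ha, rfl⟩⟩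
              have h1' : (1 : ℝ) ≤ ((A.filter (fun b => padicNorm p b = padicNorm p a)).card : ℝ) := by
                exact_mod_cast h1
              have h2 : ((A.filter (fun b => padicNorm p b = padicNorm p a)).card : ℝ) ≤ A.card := by
                exact_mod_cast Finset.card_filter_le _ _
              have h3 : ((A.filter (fun b => padicNorm p b = padicNorm p a)).card : ℝ) ^ θ
                  = ((A.filter (fun b => padicNorm p b = padicNorm p a)).card : ℝ)
                    * ((A.filter (fun b => padicNorm p b = padicNorm p a)).card : ℝ) ^ (θ - 1) := by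
                rw [← Real.rpow_one_add' (by linarith) (by linarith)]
                congr 1
                ring
              rw [h3]
              apply mul_le_mul_of_nonneg_left _ (by linarith)
              exact Real.rpow_le_rpow (by linarith) h2 (by linarith)
          _ = (A.card : ℝ) * (A.card : ℝ) ^ (θ - 1) := by rw [← Finset.sum_mul, ← e4]
          _ = (A.card : ℝ) ^ θ := by
              rw [← Real.rpow_one_add' (by linarith) (by linarith)]
              congr 1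
              ring
      have h4 := Finset.sum_le_sum h2
      rw [← Finset.mul_sum, ← Finset.mul_sum] at h4
      have h5 : L * ((6 * L) ^ m * D * ∑ j ∈ A.image (padicNorm p),
          ((A.filter (fun a => padicNorm p a = j)).card : ℝ) ^ θ)
          ≤ L * ((6 * L) ^ m * D * (A.card : ℝ) ^ θ) :=
        mul_le_mul_of_nonneg_left (mul_le_mul_of_nonneg_left h3 hDm) (by linarith)
      calc Real.sqrt (Ep A) ≤ 6 * ∑ j ∈ A.image (padicNorm p),
            Real.sqrt (Ep (A.filter (fun a => padicNorm p a = j))) := h1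
        _ ≤ 6 * (L * ((6 * L) ^ m * D * (A.card : ℝ) ^ θ)) := by linarith
        _ = (6 * L) ^ (m + 1) * D * (A.card : ℝ) ^ θ := by ring

/-- Any energy bound `E(A) ≤ D^2 |A|^(2θ)` for squares of rationals with `|num| den ≤ N` (up to a
common factor) extends to the products with a group of rank `≤ ρ`. -/
theorem transfer {ρ : ℕ} (g : Fin ρ → ℚ) (hg : ∀ i, g i ≠ 0) (θ D : ℝ) (hθ : 1 ≤ θ) (hD : 0 ≤ D)
    (N : ℕ) (hN : 1 ≤ N)
    (hbase : ∀ (r : ℚ) (A : Finset ℚ), r ≠ 0 →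
      (∀ a ∈ A, ∃ y : ℚ, ht y ≤ N ∧ a = (r * y) ^ 2) →
      Real.sqrt (Ep A) ≤ D * (A.card : ℝ) ^ θ) (r : ℚ) (A : Finset ℚ) (hr : r ≠ 0)
    (hA : ∀ a ∈ A, ∃ (e : Fin ρ → ℤ) (y : ℚ), ht y ≤ N ∧ a = (r * (∏ i, g i ^ e i) * y) ^ 2) :
    Real.sqrt (Ep A) ≤ (6 * (2 * (Nat.log 2 N : ℝ) + 1)) ^ ρ * D * (A.card : ℝ) ^ θ :=
  transfer_aux g hg θ D hθ hD N hN hbase ρ ⊤ (by rw [finrank_top, Module.finrank_fin_fun]) r A hr
    (fun a ha => by
      obtain ⟨e, y, h1, h2⟩ := hA a ha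
      exact ⟨e, Submodule.mem_top, y, h1, h2⟩)

end H41SQ
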